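import Pool.Agent.H223.EM.MDefs
import Pool.Agent.H306R2.Window
import Pool.Agent.H768R2.SM_T0c

set_option autoImplicit false

/-!
Eighth moment lower bound, MH: Hölder's inequality
`|∫ om ζ² A B|⁴ ≤ M8 (∫ om |A|⁴) (∫ om |B|²)²`.
-/

namespace Pool.Agent.H284R2.EM

open Finset Filter Topology MeasureTheory Complex
open Pool.Agent.H306R2 Pool.Agent.H306R2.SM Pool.Agent.H223.EM

noncomputable section

lemma om_nonneg (k : ℕ) {δ t : ℝ} (hδ : 0 < δ) (ht : 0 ≤ t) : 0 ≤ om k δ t := by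
  unfold om; positivity

lemma om_cont (k : ℕ) (δ : ℝ) : Continuous (om k δ) := by
  unfold om; fun_prop

/-- integrability of `om * (1+t)^A` -/
lemma om_poly (k A : ℕ) {δ : ℝ} (hδ : 0 < δ) :
    IntegrableOn (fun t : ℝ => om k δ t * (1 + t) ^ A) (Set.Ioi 0) := by
  have h1 : ∀ j : ℕ, IntegrableOn (fun t : ℝ => t ^ (k + j) * Real.exp (-(δ * t))) (Set.Ioi 0) := by
    intro j
    have := Real.GammaIntegral_convergent (s := (k + j : ℕ) + 1) (by positivity)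
    have h2 := (integrableOn_Ioi_comp_mul_left_iff (fun x : ℝ => Real.exp (-x) * x ^ (((k + j : ℕ):ℝ) + 1 - 1)) 0 hδ).mpr
      (by simpa using this)
    have h3 : IntegrableOn (fun x => (δ ^ (k + j))⁻¹ *
        (Real.exp (-(δ * x)) * (δ * x) ^ (((k + j : ℕ) : ℝ) + 1 - 1))) (Set.Ioi 0) :=
      h2.const_mul ((δ ^ (k + j))⁻¹)
    refine h3.congr_fun (fun t ht => ?_) measurableSet_Ioi
    have ht0 : 0 < t := ht
    simp only [add_sub_cancel_right]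
    rw [Real.rpow_natCast, mul_pow]
    field_simp
  have h4 : (fun t : ℝ => om k δ t * (1 + t) ^ A) = fun t : ℝ =>
      ∑ j ∈ range (A + 1), (δ ^ (k + 1) / (k.factorial : ℝ) * (A.choose j : ℝ)) *
        (t ^ (k + j) * Real.exp (-(δ * t))) := by
    funext t
    rw [add_comm 1 t, add_pow, mul_sum]
    refine sum_congr rfl fun j _ => ?_
    unfold om
    rw [pow_add]
    ring
  rw [h4]
  exact integrable_finsetSum _ fun j _ => (h1 j).const_mul _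

lemma ef_norm (θ t : ℝ) : ‖ef θ t‖ = 1 := by
  unfold ef
  rw [Complex.norm_exp_ofReal_mul_I]

lemma ef_cont (θ : ℝ) : Continuous (ef θ) := by
  unfold ef; fun_prop

/-- polynomial boundedness class -/
def PG (f : ℝ → ℂ) : Prop := Continuous f ∧ ∃ C : ℝ, ∃ A : ℕ, 0 ≤ C ∧ ∀ t : ℝ, 0 ≤ t → ‖f t‖ ≤ C * (1 + t) ^ A

lemma PG.mul {f g : ℝ → ℂ} (hf : PG f) (hg : PG g) : PG (fun t => f t * g t) := by
  obtain ⟨hfc, C, A, hC, hA⟩ := hf
  obtain ⟨hgc, D, B, hD, hB⟩ := hg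
  refine ⟨hfc.mul hgc, C * D, A + B, mul_nonneg hC hD, fun t ht => ?_⟩
  rw [norm_mul, pow_add]
  calc ‖f t‖ * ‖g t‖ ≤ (C * (1 + t) ^ A) * (D * (1 + t) ^ B) :=
        mul_le_mul (hA t ht) (hB t ht) (norm_nonneg _) (by positivity)
    _ = _ := by ring

lemma PG.add {f g : ℝ → ℂ} (hf : PG f) (hg : PG g) : PG (fun t => f t + g t) := by
  obtain ⟨hfc, C, A, hC, hA⟩ := hf
  obtain ⟨hgc, D, B, hD, hB⟩ := hg
  refine ⟨hfc.add hgc, C + D, A + B, add_nonneg hC hD, fun t ht => ?_⟩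
  have h1 : (1:ℝ) ≤ 1 + t := by linarith
  have e1 : (1 + t) ^ A ≤ (1 + t) ^ (A + B) := pow_le_pow_right₀ h1 (Nat.le_add_right _ _)
  have e2 : (1 + t) ^ B ≤ (1 + t) ^ (A + B) := pow_le_pow_right₀ h1 (Nat.le_add_left _ _)
  calc ‖f t + g t‖ ≤ ‖f t‖ + ‖g t‖ := norm_add_le _ _
    _ ≤ C * (1 + t) ^ (A + B) + D * (1 + t) ^ (A + B) :=
        add_le_add ((hA t ht).trans (mul_le_mul_of_nonneg_left e1 hC))
          ((hB t ht).trans (mul_le_mul_of_nonneg_left e2 hD))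
    _ = _ := by ring

lemma PG.const (c : ℂ) : PG (fun _ => c) :=
  ⟨continuous_const, ‖c‖, 0, norm_nonneg _, fun t _ => by simp⟩

lemma PG.ef (θ : ℝ) : PG (ef θ) :=
  ⟨ef_cont θ, 1, 0, zero_le_one, fun t _ => by simp [ef_norm]⟩

lemma PG.X : PG (fun t => Xf (cl t)) :=
  ⟨Pool.Agent.H768R2.SM_T0c.Xf_continuous, 1, 0, zero_le_one, fun t _ => by
    simp [Pool.Agent.H768R2.SM_T0c.Xf_line]⟩

lemma PG.pow {f : ℝ → ℂ} (hf : PG f) (n : ℕ) : PG (fun t => f t ^ n) := by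
  induction n with
  | zero => simpa using PG.const 1
  | succ n ih => simpa [pow_succ] using ih.mul hf

lemma PG.sum {ι : Type*} (s : Finset ι) {f : ι → ℝ → ℂ} (hf : ∀ i ∈ s, PG (f i)) :
    PG (fun t => ∑ i ∈ s, f i t) := by
  classical
  induction s using Finset.induction_on with
  | empty => simpa using PG.const 0
  | insert a s ha ih =>
    have := (hf a (mem_insert_self _ _)).add (ih fun i hi => hf i (mem_insert_of_mem hi))
    refine cast (congrArg PG ?_) this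
    funext t
    rw [sum_insert ha]

lemma zeta_cl_bound (t : ℝ) (_ht : 0 ≤ t) : ‖riemannZeta (cl t)‖ ≤ 24 * (1 + t) ^ 2 := by
  have h := zeta_norm_le (s := cl t) (by simp [cl]) (by
    have h1 : |(cl t - 1).re| ≤ ‖cl t - 1‖ := Complex.abs_re_le_norm _
    have h2 : |(cl t - 1).re| = 1 / 2 := by
      simp only [cl, Complex.sub_re, Complex.add_re, Complex.mul_re, Complex.ofReal_re,
        Complex.I_re, mul_zero, Complex.ofReal_im, Complex.I_im, mul_one, sub_self, add_zero,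
        Complex.one_re]
      norm_num
    linarith)
  have h3 : ‖cl t‖ ≤ 1 / 2 + t := by
    unfold cl
    refine (norm_add_le _ _).trans ?_
    rw [norm_mul, Complex.norm_real, Complex.norm_I, mul_one, Real.norm_of_nonneg _ht]
    norm_num
  refine h.trans ?_
  have h4 : (‖cl t‖ + 1) ^ 2 ≤ (2 * (1 + t)) ^ 2 := by
    apply pow_le_pow_left₀ (by positivity)
    linarith
  nlinarith

lemma PG.zeta : PG (fun t => riemannZeta (cl t)) :=
  ⟨zeta_line_continuous, 24, 2, by norm_num, fun t ht => zeta_cl_bound t ht⟩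

/-- integrability of `om |f|^j` -/
lemma PG.intPow {f : ℝ → ℂ} (hf : PG f) (k : ℕ) {δ : ℝ} (hδ : 0 < δ) :
    IntegrableOn (fun t : ℝ => om k δ t * ‖f t‖) (Set.Ioi 0) := by
  obtain ⟨hc, C, A, hC, h⟩ := hf
  refine Integrable.mono' ((om_poly k A hδ).const_mul C) ?_ ?_
  · exact ((om_cont k δ).mul hc.norm).aestronglyMeasurable
  · refine (ae_restrict_iff' measurableSet_Ioi).mpr (Eventually.of_forall fun t ht => ?_)
    have ht0 : (0:ℝ) ≤ t := le_of_lt ht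
    rw [norm_mul, Real.norm_of_nonneg (om_nonneg k hδ ht0), norm_norm]
    calc om k δ t * ‖f t‖ ≤ om k δ t * (C * (1 + t) ^ A) :=
          mul_le_mul_of_nonneg_left (h t ht0) (om_nonneg k hδ ht0)
      _ = C * (om k δ t * (1 + t) ^ A) := by ring

/-- Cauchy-Schwarz with the weight `om` -/
lemma cs (k : ℕ) {δ : ℝ} (hδ : 0 < δ) {f g : ℝ → ℂ} (hf : PG f) (hg : PG g) :
    (∫ t in Set.Ioi (0 : ℝ), om k δ t * (‖f t‖ * ‖g t‖)) ^ 2 ≤
      (∫ t in Set.Ioi (0 : ℝ), om k δ t * ‖f t‖ ^ 2) * (∫ t in Set.Ioi (0 : ℝ), om k δ t * ‖g t‖ ^ 2) := by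
  have iF : IntegrableOn (fun t : ℝ => om k δ t * ‖f t‖ ^ 2) (Set.Ioi 0) := by
    simpa [norm_pow] using (hf.pow 2).intPow k hδ
  have iG : IntegrableOn (fun t : ℝ => om k δ t * ‖g t‖ ^ 2) (Set.Ioi 0) := by
    simpa [norm_pow] using (hg.pow 2).intPow k hδ
  have iFG : IntegrableOn (fun t : ℝ => om k δ t * (‖f t‖ * ‖g t‖)) (Set.Ioi 0) := by
    simpa [norm_mul] using (hf.mul hg).intPow k hδ
  set P := ∫ t in Set.Ioi (0 : ℝ), om k δ t * ‖f t‖ ^ 2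
  set Q := ∫ t in Set.Ioi (0 : ℝ), om k δ t * ‖g t‖ ^ 2
  set R := ∫ t in Set.Ioi (0 : ℝ), om k δ t * (‖f t‖ * ‖g t‖)
  have key : ∀ x : ℝ, 0 ≤ P * (x * x) + (-2 * R) * x + Q := by
    intro x
    have h1 : P * (x * x) + (-2 * R) * x + Q =
        ∫ t in Set.Ioi (0 : ℝ), om k δ t * (x * ‖f t‖ - ‖g t‖) ^ 2 := by
      have e : (fun t : ℝ => om k δ t * (x * ‖f t‖ - ‖g t‖) ^ 2) = fun t =>
          (x * x) * (om k δ t * ‖f t‖ ^ 2) + (-2 * x) * (om k δ t * (‖f t‖ * ‖g t‖)) +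
            om k δ t * ‖g t‖ ^ 2 := by
        funext t; ring
      have i1 : IntegrableOn (fun t : ℝ => (x * x) * (om k δ t * ‖f t‖ ^ 2)) (Set.Ioi 0) := iF.const_mul _
      have i2 : IntegrableOn (fun t : ℝ => (-2 * x) * (om k δ t * (‖f t‖ * ‖g t‖))) (Set.Ioi 0) :=
        iFG.const_mul _
      have i3 : IntegrableOn (fun t : ℝ => (x * x) * (om k δ t * ‖f t‖ ^ 2) +
          (-2 * x) * (om k δ t * (‖f t‖ * ‖g t‖))) (Set.Ioi 0) := i1.add i2
      rw [e, integral_add i3 iG, integral_add i1 i2, integral_const_mul, integral_const_mul]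
      simp only [P, Q, R]
      ring
    rw [h1]
    refine setIntegral_nonneg measurableSet_Ioi fun t ht => ?_
    exact mul_nonneg (om_nonneg k hδ (le_of_lt ht)) (sq_nonneg _)
  have h2 := discrim_le_zero key
  unfold discrim at h2
  nlinarith

/-- MH. Hölder -/
theorem holder8 (ε : ℝ) (T : ℝ) (hT : 1 < T) (k : ℕ) (hk : 1 ≤ k) :
    ‖∫ t in Set.Ioi (0 : ℝ), (om k (k / T) t : ℂ) * riemannZeta (cl t) ^ 2 * Ap ε T t * Bc ε T t‖ ^ 4 ≤
      M8 k T * (∫ t in Set.Ioi (0 : ℝ), om k (k / T) t * ‖Ap ε T t‖ ^ 4) *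
        (∫ t in Set.Ioi (0 : ℝ), om k (k / T) t * ‖Bc ε T t‖ ^ 2) ^ 2 := by
  have hδ : 0 < (k : ℝ) / T := by
    have : (0:ℝ) < k := by exact_mod_cast hk
    positivity
  have pA : PG (fun t => Ap ε T t) := by
    unfold Ap
    exact PG.sum _ fun n _ => (PG.const _).mul (PG.ef _)
  have pC : ∀ (S : Finset (ℕ × ℕ)) (c : ℕ × ℕ → ℝ), PG (fun t => Cp S c t) := by
    intro S c
    unfold Cp
    exact PG.sum _ fun n _ => (PG.const _).mul (PG.ef _)
  have pB : PG (fun t => Bc ε T t) := by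
    unfold Bc
    exact (PG.X.mul (pC _ _)).add ((PG.X.pow 2).mul (pC _ _))
  have pz2 : PG (fun t => riemannZeta (cl t) ^ 2) := PG.zeta.pow 2
  have pzA : PG (fun t => riemannZeta (cl t) ^ 2 * Ap ε T t) := pz2.mul pA
  set δ := (k : ℝ) / T with hδd
  have h1 : ‖∫ t in Set.Ioi (0 : ℝ), (om k δ t : ℂ) * riemannZeta (cl t) ^ 2 * Ap ε T t * Bc ε T t‖ ≤
      ∫ t in Set.Ioi (0 : ℝ), om k δ t * (‖riemannZeta (cl t) ^ 2 * Ap ε T t‖ * ‖Bc ε T t‖) := by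
    refine (norm_integral_le_integral_norm _).trans (le_of_eq ?_)
    refine setIntegral_congr_fun measurableSet_Ioi fun t ht => ?_
    simp only [norm_mul, Complex.norm_real, Real.norm_of_nonneg (om_nonneg k hδ (le_of_lt ht))]
    ring
  have h2 := cs k hδ pzA pB
  have h4 := cs k hδ (PG.zeta.pow 4) (pA.pow 2)
  have e1 : ∫ t in Set.Ioi (0 : ℝ), om k δ t * ‖riemannZeta (cl t) ^ 2 * Ap ε T t‖ ^ 2 =
      ∫ t in Set.Ioi (0 : ℝ), om k δ t * (‖riemannZeta (cl t) ^ 4‖ * ‖Ap ε T t ^ 2‖) := by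
    refine setIntegral_congr_fun measurableSet_Ioi fun t _ => ?_
    simp only [norm_mul, norm_pow]
    ring
  have e2 : ∫ t in Set.Ioi (0 : ℝ), om k δ t * ‖riemannZeta (cl t) ^ 4‖ ^ 2 = M8 k T := by
    unfold M8
    refine setIntegral_congr_fun measurableSet_Ioi fun t _ => ?_
    simp only [norm_pow]
    ring
  have e3 : ∫ t in Set.Ioi (0 : ℝ), om k δ t * ‖Ap ε T t ^ 2‖ ^ 2 =
      ∫ t in Set.Ioi (0 : ℝ), om k δ t * ‖Ap ε T t‖ ^ 4 := by
    refine setIntegral_congr_fun measurableSet_Ioi fun t _ => ?_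
    simp only [norm_pow]
    ring
  rw [e2, e3] at h4
  rw [e1] at h2
  set I := ‖∫ t in Set.Ioi (0 : ℝ), (om k δ t : ℂ) * riemannZeta (cl t) ^ 2 * Ap ε T t * Bc ε T t‖ with hI
  set J := ∫ t in Set.Ioi (0 : ℝ), om k δ t * (‖riemannZeta (cl t) ^ 2 * Ap ε T t‖ * ‖Bc ε T t‖) with hJ
  set K := ∫ t in Set.Ioi (0 : ℝ), om k δ t * (‖riemannZeta (cl t) ^ 4‖ * ‖Ap ε T t ^ 2‖) with hK
  set B2 := ∫ t in Set.Ioi (0 : ℝ), om k δ t * ‖Bc ε T t‖ ^ 2 with hB2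
  set A4 := ∫ t in Set.Ioi (0 : ℝ), om k δ t * ‖Ap ε T t‖ ^ 4 with hA4
  have hI0 : 0 ≤ I := norm_nonneg _
  have hJ0 : 0 ≤ J := hI0.trans h1
  calc I ^ 4 ≤ J ^ 4 := pow_le_pow_left₀ hI0 h1 4
    _ = (J ^ 2) ^ 2 := by ring
    _ ≤ (K * B2) ^ 2 := pow_le_pow_left₀ (sq_nonneg _) h2 2
    _ = K ^ 2 * B2 ^ 2 := by ring
    _ ≤ (M8 k T * A4) * B2 ^ 2 := mul_le_mul_of_nonneg_right h4 (sq_nonneg _)

end

end Pool.Agent.H284R2.EM
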