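import Mathlib

set_option autoImplicit false

namespace Pool.Agent.H284R2

/-- evaluate `x` before calling `k` -/
noncomputable def frc (x : ℕ) (k : ℕ → Bool) : Bool := Nat.rec false (fun n _ => k n) (Nat.succ x)

theorem frc_eq (x : ℕ) (k : ℕ → Bool) : frc x k = k x := rfl

/-- bit `l` of `S` as a number -/
def tb (S l : ℕ) : ℕ := Nat.mod (Nat.shiftRight S l) 2

/-- hexadecimal digit `i` of `n` -/
def dg (n i : ℕ) : ℕ := Nat.mod (Nat.shiftRight n (Nat.mul 4 i)) 16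

def has (S l : ℕ) : Bool := Nat.beq (tb S l) 1

def ins (S l : ℕ) : ℕ := Nat.lor S (Nat.pow 2 l)

def lt01 (x s : ℕ) : ℕ := cond (Nat.ble (Nat.succ x) s) 1 0

/-- conflict -/
noncomputable def stepC (n : ℕ) (K : ℕ → List ℕ → Bool) (S : ℕ) (st : List ℕ) : Bool :=
  frc (Nat.shiftRight n 4) fun m =>
    and (has S (Nat.mul 2 m)) (and (has S (Nat.succ (Nat.mul 2 m)))
      (List.rec true (fun s t _ => K s t) st))

/-- decision -/
noncomputable def stepD (n : ℕ) (K : ℕ → List ℕ → Bool) (S : ℕ) (st : List ℕ) : Bool :=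
  frc (Nat.shiftRight n 5) fun m => frc (Nat.mod (Nat.shiftRight n 4) 2) fun va =>
    frc (ins S (Nat.add (Nat.mul 2 m) va)) fun S1 =>
    frc (ins S (Nat.add (Nat.mul 2 m) (Nat.sub 1 va))) fun S2 => K S1 (S2 :: st)

/-- facet step -/
noncomputable def stepF (FT : ℕ) (n : ℕ) (K : ℕ → List ℕ → Bool) (S : ℕ) (st : List ℕ) : Bool :=
  frc (Nat.mod (Nat.shiftRight n 4) 256) fun i => frc (dg n 3) fun x => frc (dg n 4) fun y =>
  frc (Nat.mod (Nat.shiftRight n 20) 2) fun v =>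
  frc (dg FT (Nat.mul 4 i)) fun s0 => frc (dg FT (Nat.succ (Nat.mul 4 i))) fun s1 =>
  frc (dg FT (Nat.add 2 (Nat.mul 4 i))) fun s2 => frc (dg FT (Nat.add 3 (Nat.mul 4 i))) fun s3 =>
  frc (Nat.lor (Nat.pow 2 s0) (Nat.lor (Nat.pow 2 s1) (Nat.lor (Nat.pow 2 s2) (Nat.pow 2 s3)))) fun M =>
  and (Nat.ble (Nat.succ i) 77) (and (Nat.ble x 13) (and (Nat.ble y 13)
  (and (Nat.beq (tb M x) 0) (and (Nat.beq (tb M y) 0)
  (and (has S (Nat.add (Nat.mul 2 (Nat.lor M (Nat.pow 2 x))) v))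
  (frc (ins S (Nat.add (Nat.mul 2 (Nat.lor M (Nat.pow 2 y)))
    (Nat.mod (Nat.add v (Nat.add
      (Nat.add (Nat.add (lt01 x s0) (lt01 x s1)) (Nat.add (lt01 x s2) (lt01 x s3)))
      (Nat.add (Nat.add (lt01 y s0) (lt01 y s1)) (Nat.add (lt01 y s2) (lt01 y s3))))) 2))) fun S' =>
    K S' st))))))

/-- balanced circuit step -/
noncomputable def stepB (n : ℕ) (K : ℕ → List ℕ → Bool) (S : ℕ) (st : List ℕ) : Bool :=
  frc (dg n 1) fun c0 => frc (dg n 2) fun c1 => frc (dg n 3) fun c2 => frc (dg n 4) fun c3 =>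
  frc (dg n 5) fun c4 => frc (dg n 6) fun c5 =>
  frc (dg n 7) fun p => frc (dg n 8) fun q => frc (dg n 9) fun r => frc (dg n 10) fun t =>
  frc (dg n 11) fun x =>
  frc (Nat.lor (Nat.pow 2 c0) (Nat.lor (Nat.pow 2 c1) (Nat.lor (Nat.pow 2 c2)
    (Nat.lor (Nat.pow 2 c3) (Nat.lor (Nat.pow 2 c4) (Nat.pow 2 c5)))))) fun M =>
  and (Nat.ble (Nat.succ c0) c1) (and (Nat.ble (Nat.succ c1) c2) (and (Nat.ble (Nat.succ c2) c3)
  (and (Nat.ble (Nat.succ c3) c4) (and (Nat.ble (Nat.succ c4) c5) (and (Nat.ble c5 14)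
  (and (Nat.ble (Nat.succ p) q) (and (Nat.ble (Nat.succ q) r) (and (Nat.ble r 5)
  (and (Nat.ble t 5) (and (Nat.ble x 1)
  (and (Nat.beq (Nat.land (Nat.lor (Nat.pow 2 p) (Nat.lor (Nat.pow 2 q) (Nat.pow 2 r))) (Nat.pow 2 t)) 0)
  (and (has S (Nat.add (Nat.mul 2 (Nat.xor M (Nat.pow 2 (dg n (Nat.succ p))))) (Nat.mod (Nat.add x p) 2)))
  (and (has S (Nat.add (Nat.mul 2 (Nat.xor M (Nat.pow 2 (dg n (Nat.succ q))))) (Nat.mod (Nat.add x q) 2)))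
  (and (has S (Nat.add (Nat.mul 2 (Nat.xor M (Nat.pow 2 (dg n (Nat.succ r))))) (Nat.mod (Nat.add x r) 2)))
  (frc (ins S (Nat.add (Nat.mul 2 (Nat.xor M (Nat.pow 2 (dg n (Nat.succ t)))))
    (Nat.mod (Nat.succ (Nat.add x t)) 2))) fun S' => K S' st)))))))))))))))

/-- premise check of a Grassmann-Pluecker step -/
def prm (S f i m w : ℕ) : Bool := or (Nat.beq i f) (has S (Nat.add (Nat.mul 2 m) w))

/-- selection -/
def sel (f a0 a1 a2 a3 a4 a5 : ℕ) : ℕ :=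
  cond (Nat.beq f 0) a0 (cond (Nat.beq f 1) a1 (cond (Nat.beq f 2) a2 (cond (Nat.beq f 3) a3
    (cond (Nat.beq f 4) a4 a5))))

/-- Grassmann-Pluecker step -/
noncomputable def stepG (n : ℕ) (K : ℕ → List ℕ → Bool) (S : ℕ) (st : List ℕ) : Bool :=
  frc (dg n 1) fun t0 => frc (dg n 2) fun t1 => frc (dg n 3) fun t2 => frc (dg n 4) fun a =>
  frc (dg n 5) fun b => frc (dg n 6) fun c => frc (dg n 7) fun d => frc (dg n 8) fun f =>
  frc (tb n 36) fun w0 => frc (tb n 37) fun w1 => frc (tb n 38) fun w2 =>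
  frc (tb n 39) fun w3 => frc (tb n 40) fun w4 => frc (tb n 41) fun w5 =>
  frc (Nat.lor (Nat.pow 2 t0) (Nat.lor (Nat.pow 2 t1) (Nat.pow 2 t2))) fun T =>
  frc (Nat.lor T (Nat.lor (Nat.pow 2 a) (Nat.pow 2 b))) fun m0 =>
  frc (Nat.lor T (Nat.lor (Nat.pow 2 c) (Nat.pow 2 d))) fun m1 =>
  frc (Nat.lor T (Nat.lor (Nat.pow 2 a) (Nat.pow 2 c))) fun m2 =>
  frc (Nat.lor T (Nat.lor (Nat.pow 2 b) (Nat.pow 2 d))) fun m3 =>
  frc (Nat.lor T (Nat.lor (Nat.pow 2 a) (Nat.pow 2 d))) fun m4 =>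
  frc (Nat.lor T (Nat.lor (Nat.pow 2 b) (Nat.pow 2 c))) fun m5 =>
  and (Nat.ble (Nat.succ t0) t1) (and (Nat.ble (Nat.succ t1) t2) (and (Nat.ble t2 14)
  (and (Nat.ble (Nat.succ a) b) (and (Nat.ble (Nat.succ b) c) (and (Nat.ble (Nat.succ c) d)
  (and (Nat.ble d 14) (and (Nat.ble f 5)
  (and (Nat.beq (Nat.land T (Nat.lor (Nat.lor (Nat.pow 2 a) (Nat.pow 2 b)) (Nat.lor (Nat.pow 2 c) (Nat.pow 2 d)))) 0)
  (and (Nat.beq (Nat.mod (Nat.add w0 w1) 2) (Nat.mod (Nat.succ (Nat.add w2 w3)) 2))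
  (and (Nat.beq (Nat.mod (Nat.add w0 w1) 2) (Nat.mod (Nat.add w4 w5) 2))
  (and (prm S f 0 m0 w0) (and (prm S f 1 m1 w1) (and (prm S f 2 m2 w2) (and (prm S f 3 m3 w3)
  (and (prm S f 4 m4 w4) (and (prm S f 5 m5 w5)
  (frc (ins S (Nat.add (Nat.mul 2 (sel f m0 m1 m2 m3 m4 m5)) (Nat.sub 1 (sel f w0 w1 w2 w3 w4 w5))))
    fun S' => K S' st)))))))))))))))))

noncomputable def body (FT : ℕ) (n : ℕ) (K : ℕ → List ℕ → Bool) (S : ℕ) (st : List ℕ) : Bool :=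
  frc (Nat.mod n 16) fun k =>
    cond (Nat.beq k 2) (stepG n K S st) (cond (Nat.beq k 1) (stepB n K S st)
      (cond (Nat.beq k 0) (stepF FT n K S st) (cond (Nat.beq k 3) (stepD n K S st)
        (cond (Nat.beq k 4) (stepC n K S st) false))))

noncomputable def run (FT : ℕ) (items : List ℕ) : ℕ → List ℕ → Bool :=
  List.rec (fun _ _ => false) (fun n _ ih S st => body FT n ih S st) items

end Pool.Agent.H284R2
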