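import Mathlib

set_option autoImplicit false

namespace Pool.Agent.H284R2

/-- Euclidean `n`-space. -/
abbrev Sp (n : ℕ) : Type := EuclideanSpace ℝ (Fin n)

section general

variable {n N : ℕ} (p : Fin N → Sp n)

lemma face_data {F : Set (Sp n)} {A : Set (Sp n)} (hF : IsExposed ℝ (convexHull ℝ A) F)
    (hne : F.Nonempty) :
    ∃ (l : StrongDual ℝ (Sp n)) (M : ℝ), (∀ x ∈ convexHull ℝ A, l x ≤ M) ∧
      F = {x | x ∈ convexHull ℝ A ∧ l x = M} ∧ F = convexHull ℝ (A ∩ F) := by
  obtain ⟨l, hl⟩ := hF hne
  obtain ⟨x0, hx0⟩ := hne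
  have hx0' := hx0
  rw [hl] at hx0'
  have hF' : F = {x | x ∈ convexHull ℝ A ∧ l x = l x0} := by
    rw [hl]
    ext x
    constructor
    · rintro ⟨h1, h2⟩
      exact ⟨h1, le_antisymm (hx0'.2 x h1) (h2 x0 hx0'.1)⟩
    · rintro ⟨h1, h2⟩
      exact ⟨h1, fun y hy => by rw [h2]; exact hx0'.2 y hy⟩
  refine ⟨l, l x0, fun x hx => hx0'.2 x hx, hF', ?_⟩
  apply Set.Subset.antisymm
  · have key : convexHull ℝ A ⊆ {x | l x ≤ l x0 ∧ (l x = l x0 → x ∈ convexHull ℝ (A ∩ F))} := by
      apply convexHull_min
      · intro x hx
        have hxA : x ∈ convexHull ℝ A := subset_convexHull ℝ A hx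
        refine ⟨hx0'.2 x hxA, fun h => subset_convexHull ℝ _ ⟨hx, ?_⟩⟩
        rw [hF']
        exact ⟨hxA, h⟩
      · intro x hx y hy a b ha hb hab
        have hlin : l (a • x + b • y) = a * l x + b * l y := by
          rw [map_add, map_smul, map_smul]; rfl
        refine ⟨?_, ?_⟩
        · rw [hlin]
          have := mul_le_mul_of_nonneg_left hx.1 ha
          have := mul_le_mul_of_nonneg_left hy.1 hb
          have h3 : a * l x0 + b * l x0 = l x0 := by rw [← add_mul, hab, one_mul]
          linarith
        · intro h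
          rw [hlin] at h
          rcases eq_or_lt_of_le ha with ha0 | ha0
          · have hb1 : b = 1 := by linarith
            have ha0' : a = 0 := ha0.symm
            rw [ha0', hb1, zero_mul, one_mul, zero_add] at h
            rw [ha0', hb1, zero_smul, one_smul, zero_add]
            exact hy.2 h
          · rcases eq_or_lt_of_le hb with hb0 | hb0
            · have ha1 : a = 1 := by linarith
              have hb0' : b = 0 := hb0.symm
              rw [hb0', ha1, zero_mul, one_mul, add_zero] at h
              rw [hb0', ha1, zero_smul, one_smul, add_zero]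
              exact hx.2 h
            · have h3 : a * l x0 + b * l x0 = l x0 := by rw [← add_mul, hab, one_mul]
              have hx1 : l x = l x0 := by
                by_contra hne
                have : l x < l x0 := lt_of_le_of_ne hx.1 hne
                have := mul_lt_mul_of_pos_left this ha0
                have := mul_le_mul_of_nonneg_left hy.1 hb
                linarith
              have hy1 : l y = l x0 := by
                by_contra hne
                have : l y < l x0 := lt_of_le_of_ne hy.1 hne
                have := mul_lt_mul_of_pos_left this hb0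
                have := mul_le_mul_of_nonneg_left hx.1 ha
                linarith
              exact (convex_convexHull ℝ _) (hx.2 hx1) (hy.2 hy1) ha hb hab
    intro x hx
    have hx' := hx
    rw [hF'] at hx'
    exact (key hx'.1).2 hx'.2
  · apply convexHull_min (Set.inter_subset_right)
    rw [hF']
    intro x hx y hy a b ha hb hab
    refine ⟨(convex_convexHull ℝ _) hx.1 hy.1 ha hb hab, ?_⟩
    rw [map_add, map_smul, map_smul, hx.2, hy.2, ← add_smul, hab, one_smul]

/-- The convex hull of the points with indices in `s`. -/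
def hull (s : Finset (Fin N)) : Set (Sp n) := convexHull ℝ (p '' (s : Set (Fin N)))

open Classical in
/-- the indices of the points in `F` -/
noncomputable def ind (F : Set (Sp n)) : Finset (Fin N) := Finset.univ.filter fun k => p k ∈ F

lemma mem_ind (F : Set (Sp n)) (k : Fin N) : k ∈ ind p F ↔ p k ∈ F := by
  simp [ind]

/-- The whole polytope. -/
def poly : Set (Sp n) := convexHull ℝ (Set.range p)

lemma eq_hull {F : Set (Sp n)} (hF : IsExposed ℝ (poly p) F) : F = hull p (ind p F) := by
  rcases F.eq_empty_or_nonempty with h | h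
  · have : ind p F = ∅ := by
      apply Finset.eq_empty_of_forall_notMem
      intro k hk
      rw [mem_ind, h] at hk
      exact hk
    rw [this, h]
    simp [hull]
  · obtain ⟨l, M, h1, h2, h3⟩ := face_data hF h
    have h4 : Set.range p ∩ F = p '' (ind p F : Set (Fin N)) := by
      ext x
      constructor
      · rintro ⟨⟨k, rfl⟩, hk⟩
        exact ⟨k, by simpa using (mem_ind p F k).2 hk, rfl⟩
      · rintro ⟨k, hk, rfl⟩
        exact ⟨⟨k, rfl⟩, (mem_ind p F k).1 (by simpa using hk)⟩
    rw [h4] at h3
    exact h3

lemma subset_iff {F G : Set (Sp n)} (hF : IsExposed ℝ (poly p) F) (hG : IsExposed ℝ (poly p) G) :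
    F ⊆ G ↔ ∀ k, p k ∈ F → p k ∈ G := by
  constructor
  · intro h k hk
    exact h hk
  · intro h
    rw [eq_hull p hF, eq_hull p hG]
    apply convexHull_mono
    apply Set.image_mono
    intro k hk
    have h1 : k ∈ ind p F := by simpa using hk
    have h2 : k ∈ ind p G := (mem_ind p G k).2 (h k ((mem_ind p F k).1 h1))
    simpa using h2

/-- exposing the hull of a set of vertices by a functional -/
lemma exposed_of_functional (s : Finset (Fin N)) (l : StrongDual ℝ (Sp n)) (M : ℝ)
    (h1 : ∀ k ∈ s, l (p k) = M) (h2 : ∀ k ∉ s, l (p k) < M) :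
    IsExposed ℝ (poly p) (hull p s) ∧ ind p (hull p s) = s := by
  have hle : ∀ x ∈ poly p, l x ≤ M := by
    intro x hx
    have : poly p ⊆ {x | l x ≤ M} := by
      apply convexHull_min
      · rintro _ ⟨k, rfl⟩
        by_cases hk : k ∈ s
        · exact (h1 k hk).le
        · exact (h2 k hk).le
      · exact convex_halfSpace_le (l.toLinearMap.isLinear) M
    exact this hx
  have hsub : hull p s ⊆ {x | x ∈ poly p ∧ l x = M} := by
    apply convexHull_min
    · rintro _ ⟨k, hk, rfl⟩
      exact ⟨subset_convexHull ℝ _ ⟨k, rfl⟩, h1 k (by simpa using hk)⟩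
    · intro x hx y hy a b ha hb hab
      refine ⟨(convex_convexHull ℝ _) hx.1 hy.1 ha hb hab, ?_⟩
      rw [map_add, map_smul, map_smul, hx.2, hy.2, ← add_smul, hab, one_smul]
  have hexp : IsExposed ℝ (poly p) {x | x ∈ poly p ∧ l x = M} := by
    rintro ⟨x0, hx0⟩
    refine ⟨l, ?_⟩
    ext x
    constructor
    · rintro ⟨hx, hx'⟩
      exact ⟨hx, fun y hy => by rw [hx']; exact hle y hy⟩
    · rintro ⟨hx, hx'⟩
      refine ⟨hx, le_antisymm (hle x hx) ?_⟩
      have := hx' x0 hx0.1
      rw [hx0.2] at this
      exact this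
  have hind : ind p {x | x ∈ poly p ∧ l x = M} = s := by
    ext k
    rw [mem_ind]
    constructor
    · rintro ⟨_, hk⟩
      by_contra hks
      exact absurd hk (h2 k hks).ne
    · intro hk
      exact ⟨subset_convexHull ℝ _ ⟨k, rfl⟩, h1 k hk⟩
  have heq := eq_hull p hexp
  rw [hind] at heq
  rw [← heq]
  exact ⟨hexp, hind⟩


lemma nonempty_ind {F : Set (Sp n)} (hF : IsExposed ℝ (poly p) F) (hne : F.Nonempty) :
    ∃ k, p k ∈ F := by
  by_contra h
  push Not at h
  have h1 : ind p F = ∅ := by
    apply Finset.eq_empty_of_forall_notMem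
    intro k hk
    exact h k ((mem_ind p F k).1 hk)
  have h2 := eq_hull p hF
  rw [h1] at h2
  have h3 : hull p (∅ : Finset (Fin N)) = ∅ := by simp [hull]
  rw [h3] at h2
  rw [h2] at hne
  exact Set.not_nonempty_empty hne

end general

end Pool.Agent.H284R2
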