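import Pool.Agent.H284R2.Sound

set_option autoImplicit false

namespace Pool.Agent.H284R2

/-- linear functionals on `ℝ^5` -/
abbrev Fn : Type := (Fin 5 → ℝ) →ₗ[ℝ] ℝ

/-- the determinant as a function of the rows -/
noncomputable def det5 (w : Fin 5 → Fin 5 → ℝ) : ℝ :=
  (Matrix.detRowAlternating : (Fin 5 → ℝ) [⋀^Fin 5]→ₗ[ℝ] ℝ) w

theorem det5_eq (M : Matrix (Fin 5) (Fin 5) ℝ) : Matrix.det M = det5 M := rfl

theorem matof_eq (w : Fin 5 → Fin 5 → ℝ) : (Matrix.of w : Matrix (Fin 5) (Fin 5) ℝ) = w := rfl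

theorem det_of (w : Fin 5 → Fin 5 → ℝ) : Matrix.det (Matrix.of w) = det5 w :=
  (congrArg Matrix.det (matof_eq w)).trans (det5_eq w)

/-- the determinant of five of the vectors -/
noncomputable def Dt (v : ℕ → Fin 5 → ℝ) (a b c d e : ℕ) : ℝ := det5 ![v a, v b, v c, v d, v e]

theorem plucker (u : Fin 6 → Fin 5 → ℝ) (f : Fn) :
    ∑ k : Fin 6, (-1 : ℝ) ^ (k : ℕ) * det5 (fun i => u (k.succAbove i)) * f (u k) = 0 := by
  set A : Matrix (Fin 6) (Fin 6) ℝ := Matrix.of fun k => (Fin.cons (f (u k)) (u k) : Fin 6 → ℝ) with hA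
  have h0 : A.det = 0 := by
    rw [← Matrix.exists_mulVec_eq_zero_iff]
    refine ⟨Fin.cons (-1) (fun j => f (Pi.single j 1)), ?_, ?_⟩
    · intro h
      have := congrFun h 0
      simp at this
    · ext k
      rw [Matrix.mulVec, dotProduct, Fin.sum_univ_succ]
      simp only [hA, Matrix.of_apply, Fin.cons_zero, Fin.cons_succ, Pi.zero_apply]
      have h1 : f (u k) = ∑ j, u k j * f (Pi.single j 1) := by
        conv_lhs => rw [← LinearMap.sum_single_apply (fun _ : Fin 5 => ℝ) (u k), map_sum]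
        apply Finset.sum_congr rfl
        intro j _
        rw [← smul_eq_mul, ← map_smul]
        congr 1
        ext i
        simp [Pi.single_apply]
      rw [h1]
      ring
  rw [Matrix.det_succ_column_zero] at h0
  rw [← h0]
  apply Finset.sum_congr rfl
  intro k _
  have h2 : A k 0 = f (u k) := by simp [hA]
  have h3 : A.submatrix k.succAbove Fin.succ = Matrix.of fun i => u (k.succAbove i) := by
    ext i j
    simp [hA]
  rw [h2, h3, det_of]
  ring

theorem plucker' (v : ℕ → Fin 5 → ℝ) (c0 c1 c2 c3 c4 c5 : ℕ) (f : Fn) :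
    Dt v c1 c2 c3 c4 c5 * f (v c0) - Dt v c0 c2 c3 c4 c5 * f (v c1) + Dt v c0 c1 c3 c4 c5 * f (v c2)
    - Dt v c0 c1 c2 c4 c5 * f (v c3) + Dt v c0 c1 c2 c3 c5 * f (v c4) - Dt v c0 c1 c2 c3 c4 * f (v c5)
    = 0 := by
  have h := plucker ![v c0, v c1, v c2, v c3, v c4, v c5] f
  have e : ∀ (k : Fin 6) (a b c d e : ℕ),
      (fun i => (![v c0, v c1, v c2, v c3, v c4, v c5] : Fin 6 → Fin 5 → ℝ) (k.succAbove i))
        = ![v a, v b, v c, v d, v e] →
      det5 (fun i => (![v c0, v c1, v c2, v c3, v c4, v c5] : Fin 6 → Fin 5 → ℝ) (k.succAbove i))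
        = Dt v a b c d e := by
    intro k a b c d e h
    rw [Dt, ← h]
  rw [Fin.sum_univ_six, e 0 c1 c2 c3 c4 c5, e 1 c0 c2 c3 c4 c5, e 2 c0 c1 c3 c4 c5, e 3 c0 c1 c2 c4 c5,
    e 4 c0 c1 c2 c3 c5, e 5 c0 c1 c2 c3 c4] at h
  · simp only [Matrix.cons_val] at h
    simp only [Fin.coe_ofNat_eq_mod] at h
    norm_num at h
    linarith
  all_goals (funext i; fin_cases i <;> rfl)

/-- `det (x0, x1, x2, x3, .)` as a linear functional -/
noncomputable def dfn (v : ℕ → Fin 5 → ℝ) (a b c d : ℕ) : Fn :=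
  (Matrix.detRowAlternating : (Fin 5 → ℝ) [⋀^Fin 5]→ₗ[ℝ] ℝ).toMultilinearMap.toLinearMap
    ![v a, v b, v c, v d, 0] 4

theorem dfn_apply (v : ℕ → Fin 5 → ℝ) (a b c d e : ℕ) : dfn v a b c d (v e) = Dt v a b c d e := by
  unfold dfn Dt det5
  simp only [MultilinearMap.toLinearMap_apply, AlternatingMap.coe_multilinearMap]
  have : Function.update ![v a, v b, v c, v d, 0] 4 (v e) = ![v a, v b, v c, v d, v e] := by
    funext i; fin_cases i <;> rfl
  rw [this]

theorem det5_swap (w : Fin 5 → Fin 5 → ℝ) {i j : Fin 5} (hij : i ≠ j) :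
    det5 (w ∘ Equiv.swap i j) = - det5 w :=
  AlternatingMap.map_swap _ w hij

theorem sw_aux (v : ℕ → Fin 5 → ℝ) (a b c d e a' b' c' d' e' : ℕ) (i j : Fin 5) (hij : i ≠ j)
    (h : ![v a', v b', v c', v d', v e'] = ![v a, v b, v c, v d, v e] ∘ Equiv.swap i j) :
    Dt v a' b' c' d' e' = - Dt v a b c d e := by
  unfold Dt
  rw [h]
  exact det5_swap _ hij

theorem sw01 (v : ℕ → Fin 5 → ℝ) (a b c d e : ℕ) : Dt v b a c d e = - Dt v a b c d e :=
  sw_aux v a b c d e b a c d e 0 1 (by decide) (by funext i; fin_cases i <;> rfl)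

theorem sw12 (v : ℕ → Fin 5 → ℝ) (a b c d e : ℕ) : Dt v a c b d e = - Dt v a b c d e :=
  sw_aux v a b c d e a c b d e 1 2 (by decide) (by funext i; fin_cases i <;> rfl)

theorem sw23 (v : ℕ → Fin 5 → ℝ) (a b c d e : ℕ) : Dt v a b d c e = - Dt v a b c d e :=
  sw_aux v a b c d e a b d c e 2 3 (by decide) (by funext i; fin_cases i <;> rfl)

theorem sw34 (v : ℕ → Fin 5 → ℝ) (a b c d e : ℕ) : Dt v a b c e d = - Dt v a b c d e :=
  sw_aux v a b c d e a b c e d 3 4 (by decide) (by funext i; fin_cases i <;> rfl)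

theorem Dt_rep (v : ℕ → Fin 5 → ℝ) (a b c d e : ℕ) (i j : Fin 5) (hij : i ≠ j)
    (h : (![v a, v b, v c, v d, v e] : Fin 5 → Fin 5 → ℝ) i = ![v a, v b, v c, v d, v e] j) :
    Dt v a b c d e = 0 :=
  (Matrix.detRowAlternating : (Fin 5 → ℝ) [⋀^Fin 5]→ₗ[ℝ] ℝ).map_eq_zero_of_eq _ h hij

end Pool.Agent.H284R2
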