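import Pool.Agent.H284R2.Geom

set_option autoImplicit false

namespace Pool.Agent.H284R2

/-- pair functionals -/
def Pairs (v : ℕ → Fin 5 → ℝ) : Prop := ∀ a b, a ≤ 14 → b ≤ 14 → a ≠ b →
  ∃ f : Fn, f (v a) = 0 ∧ f (v b) = 0 ∧ ∀ k ≤ 14, k ≠ a → k ≠ b → 0 < f (v k)

theorem pick_pair (v : ℕ → Fin 5 → ℝ) (hp : Pairs v) (A B : Finset ℕ) (hA : A ⊆ Finset.range 15)
    (hAB : Disjoint A B) (hcA : A.card ≤ 2) (hcB : B.card ≤ 6) :
    ∃ f : Fn, (∀ k ∈ A, f (v k) = 0) ∧ (∀ k ≤ 14, 0 ≤ f (v k)) ∧ ∀ k ≤ 14, k ∈ B → 0 < f (v k) := by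
  have h1 : A ⊆ Finset.range 15 \ B := by
    intro x hx
    rw [Finset.mem_sdiff]
    exact ⟨hA hx, fun hB => (Finset.disjoint_left.1 hAB) hx hB⟩
  have h2 : 2 ≤ (Finset.range 15 \ B).card := by
    have := Finset.le_card_sdiff B (Finset.range 15)
    rw [Finset.card_range] at this
    omega
  obtain ⟨u, hu1, hu2, hu3⟩ := Finset.exists_subsuperset_card_eq h1 hcA h2
  obtain ⟨a, b, hab, rfl⟩ := Finset.card_eq_two.1 hu3
  have ha : a ∈ Finset.range 15 \ B := hu2 (by simp)
  have hb : b ∈ Finset.range 15 \ B := hu2 (by simp)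
  rw [Finset.mem_sdiff, Finset.mem_range] at ha hb
  obtain ⟨f, hf1, hf2, hf3⟩ := hp a b (by omega) (by omega) hab
  refine ⟨f, ?_, ?_, ?_⟩
  · intro k hk
    have := hu1 hk
    rw [Finset.mem_insert, Finset.mem_singleton] at this
    rcases this with rfl | rfl
    · exact hf1
    · exact hf2
  · intro k hk
    by_cases h3 : k = a
    · rw [h3, hf1]
    · by_cases h4 : k = b
      · rw [h4, hf2]
      · exact (hf3 k hk h3 h4).le
  · intro k hk hkB
    apply hf3 k hk
    · rintro rfl; exact ha.2 hkB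
    · rintro rfl; exact hb.2 hkB

theorem three_pos (v : ℕ → Fin 5 → ℝ) (hp : Pairs v) {m : ℕ} (hm : m ≤ 6) (s : Fin m → ℕ)
    (hs : Function.Injective s) (hs14 : ∀ i, s i ≤ 14) (c : Fin m → ℝ)
    (hc : ∀ f : Fn, ∑ i, c i * f (v (s i)) = 0) (hne : ∃ i, c i ≠ 0) :
    3 ≤ (Finset.univ.filter fun i => 0 < c i).card := by
  by_contra hlt
  push Not at hlt
  set P := Finset.univ.filter fun i => 0 < c i with hP
  set Q := Finset.univ.filter fun i => c i < 0 with hQ
  have hcard : ∀ R : Finset (Fin m), (R.image s).card ≤ 6 := by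
    intro R
    calc (R.image s).card ≤ R.card := Finset.card_image_le
      _ ≤ (Finset.univ : Finset (Fin m)).card := Finset.card_le_card (Finset.subset_univ _)
      _ = m := by simp
      _ ≤ 6 := hm
  obtain ⟨f, hf1, hf2, hf3⟩ := pick_pair v hp (P.image s) (Q.image s)
    (by
      intro x hx
      obtain ⟨i, -, rfl⟩ := Finset.mem_image.1 hx
      rw [Finset.mem_range]
      have := hs14 i
      omega)
    (by
      rw [Finset.disjoint_left]
      intro x hx hx'
      obtain ⟨i, hi, rfl⟩ := Finset.mem_image.1 hx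
      obtain ⟨j, hj, hij⟩ := Finset.mem_image.1 hx'
      have := hs hij
      subst this
      rw [hP, Finset.mem_filter] at hi
      rw [hQ, Finset.mem_filter] at hj
      linarith [hi.2, hj.2])
    (by
      have := Finset.card_image_le (s := P) (f := s)
      omega)
    (hcard Q)
  have hterm : ∀ i ∈ (Finset.univ : Finset (Fin m)), c i * f (v (s i)) ≤ 0 := by
    intro i _
    rcases lt_trichotomy (c i) 0 with h | h | h
    · exact mul_nonpos_of_nonpos_of_nonneg h.le (hf2 _ (hs14 i))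
    · rw [h, zero_mul]
    · rw [hf1 (s i) (Finset.mem_image_of_mem s (by rw [hP, Finset.mem_filter]; exact ⟨Finset.mem_univ _, h⟩)),
        mul_zero]
  have hz := (Finset.sum_eq_zero_iff_of_nonpos hterm).1 (hc f)
  have hnn : ∀ i, 0 ≤ c i := by
    intro i
    by_contra hlt'
    push Not at hlt'
    have h1 := hf3 (s i) (hs14 i) (Finset.mem_image_of_mem s (by
      rw [hQ, Finset.mem_filter]; exact ⟨Finset.mem_univ _, hlt'⟩))
    have h2 := hz i (Finset.mem_univ i)
    have h3 := mul_neg_of_neg_of_pos hlt' h1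
    linarith
  obtain ⟨i0, hi0⟩ := hne
  have hi0' : 0 < c i0 := lt_of_le_of_ne (hnn i0) (Ne.symm hi0)
  obtain ⟨g, -, hg2, hg3⟩ := pick_pair v hp ∅ (Finset.univ.image s) (by simp) (by simp) (by simp)
    (hcard _)
  have hterm' : ∀ i ∈ (Finset.univ : Finset (Fin m)), 0 ≤ c i * g (v (s i)) := by
    intro i _
    exact mul_nonneg (hnn i) (hg2 _ (hs14 i))
  have hz' := (Finset.sum_eq_zero_iff_of_nonneg hterm').1 (hc g) i0 (Finset.mem_univ _)
  have h4 := mul_pos hi0' (hg3 (s i0) (hs14 i0) (Finset.mem_image_of_mem s (Finset.mem_univ _)))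
  linarith

theorem three_neg (v : ℕ → Fin 5 → ℝ) (hp : Pairs v) {m : ℕ} (hm : m ≤ 6) (s : Fin m → ℕ)
    (hs : Function.Injective s) (hs14 : ∀ i, s i ≤ 14) (c : Fin m → ℝ)
    (hc : ∀ f : Fn, ∑ i, c i * f (v (s i)) = 0) (hne : ∃ i, c i ≠ 0) :
    3 ≤ (Finset.univ.filter fun i => c i < 0).card := by
  have := three_pos v hp hm s hs hs14 (fun i => - c i)
    (by
      intro f
      have := hc f
      simp only [neg_mul, Finset.sum_neg_distrib, this, neg_zero])
    (by
      obtain ⟨i, hi⟩ := hne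
      exact ⟨i, neg_ne_zero.2 hi⟩)
  simpa only [neg_pos, Left.neg_pos_iff] using this

theorem Dt_ne_zero (v : ℕ → Fin 5 → ℝ) (hp : Pairs v) (a b c d e : ℕ) (h1 : a < b) (h2 : b < c)
    (h3 : c < d) (h4 : d < e) (h5 : e ≤ 14) : Dt v a b c d e ≠ 0 := by
  intro h0
  unfold Dt at h0
  rw [← det_of, ← Matrix.exists_vecMul_eq_zero_iff] at h0
  obtain ⟨w, hw, hw'⟩ := h0
  have hs : Function.Injective (![a, b, c, d, e] : Fin 5 → ℕ) := by
    intro i j hij
    fin_cases i <;> fin_cases j <;> simp at hij <;> first | rfl | (exfalso; omega)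
  have hs14 : ∀ i, (![a, b, c, d, e] : Fin 5 → ℕ) i ≤ 14 := by
    intro i
    fin_cases i <;> simp <;> omega
  have hc : ∀ f : Fn, ∑ i, w i * f (v ((![a, b, c, d, e] : Fin 5 → ℕ) i)) = 0 := by
    intro f
    have e1 : ∑ i, w i • (v ((![a, b, c, d, e] : Fin 5 → ℕ) i)) = 0 := by
      rw [← hw']
      ext j
      rw [Matrix.vecMul, dotProduct, Finset.sum_apply]
      apply Finset.sum_congr rfl
      intro i _
      simp only [Pi.smul_apply, smul_eq_mul, Matrix.of_apply]
      fin_cases i <;> rfl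
    have e2 := congrArg f e1
    rw [map_sum, map_zero] at e2
    simpa only [map_smul, smul_eq_mul] using e2
  have hne : ∃ i, w i ≠ 0 := by
    by_contra hcon
    push Not at hcon
    exact hw (funext hcon)
  have c1 : 3 ≤ (Finset.univ.filter fun i => 0 < w i).card := by
    convert three_pos v hp (by norm_num) _ hs hs14 w hc hne
  have c2 : 3 ≤ (Finset.univ.filter fun i => w i < 0).card := by
    convert three_neg v hp (by norm_num) _ hs hs14 w hc hne
  have c3 : Disjoint (Finset.univ.filter fun i => 0 < w i) (Finset.univ.filter fun i => w i < 0) := by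
    rw [Finset.disjoint_left]
    intro i hi hi'
    rw [Finset.mem_filter] at hi hi'
    linarith [hi.2, hi'.2]
  have c4 := Finset.card_union_of_disjoint c3
  have c5 := Finset.card_le_univ ((Finset.univ.filter fun i => 0 < w i) ∪ (Finset.univ.filter fun i => w i < 0))
  rw [Fintype.card_fin] at c5
  omega

/-- the list of set bits below 15 -/
def elems (m : ℕ) : List ℕ := (List.range 15).filter fun i => m.testBit i

theorem elems_eq (m : ℕ) (l : List ℕ) (hl : l.Pairwise (· < ·))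
    (hm : ∀ i, i ∈ l ↔ (i < 15 ∧ m.testBit i = true)) : elems m = l := by
  have h1 : (elems m).Pairwise (· < ·) := (List.pairwise_lt_range (n := 15)).filter _
  have n1 : (elems m).Nodup := h1.imp (fun h => ne_of_lt h)
  have n2 : l.Nodup := hl.imp (fun h => ne_of_lt h)
  apply List.Perm.eq_of_pairwise' (r := (· ≤ ·)) (h1.imp (fun h => le_of_lt h))
    (hl.imp (fun h => le_of_lt h))
  rw [List.perm_ext_iff_of_nodup n1 n2]
  intro i
  rw [hm i, elems, List.mem_filter, List.mem_range]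

/-- the determinant of the five vectors with indices in the bits of `m` -/
noncomputable def Dm (v : ℕ → Fin 5 → ℝ) (m : ℕ) : ℝ :=
  match elems m with
  | [a, b, c, d, e] => Dt v a b c d e
  | _ => 1

theorem Dm_eq (v : ℕ → Fin 5 → ℝ) (m a b c d e : ℕ) (h1 : a < b) (h2 : b < c)
    (h3 : c < d) (h4 : d < e) (h5 : e ≤ 14)
    (hm : ∀ i, m.testBit i = true ↔ (i = a ∨ i = b ∨ i = c ∨ i = d ∨ i = e)) :
    Dm v m = Dt v a b c d e := by
  have : elems m = [a, b, c, d, e] := by
    apply elems_eq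
    · simp only [List.pairwise_cons, List.mem_cons, List.not_mem_nil, or_false, forall_eq_or_imp,
        forall_eq, List.Pairwise.nil, and_true, false_imp_iff, implies_true]
      omega
    · intro i
      rw [hm i]
      simp only [List.mem_cons, List.not_mem_nil, or_false]
      omega
  unfold Dm
  rw [this]

/-- the sign function -/
noncomputable def sg (v : ℕ → Fin 5 → ℝ) (m : ℕ) : ℕ := by
  classical exact if Dm v m < 0 then 1 else 0

theorem sg_lt (v : ℕ → Fin 5 → ℝ) (m : ℕ) : sg v m < 2 := by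
  unfold sg
  split_ifs <;> norm_num

theorem sg_one (v : ℕ → Fin 5 → ℝ) (m : ℕ) : sg v m = 1 ↔ Dm v m < 0 := by
  unfold sg
  split_ifs with h <;> simp [h]

theorem sg_zero (v : ℕ → Fin 5 → ℝ) (m : ℕ) : sg v m = 0 ↔ ¬ Dm v m < 0 := by
  unfold sg
  split_ifs with h <;> simp [h]

theorem tb5 (m a b c d e : ℕ) (hm : m = 2 ^ a ||| (2 ^ b ||| (2 ^ c ||| (2 ^ d ||| 2 ^ e)))) (i : ℕ) :
    m.testBit i = true ↔ (i = a ∨ i = b ∨ i = c ∨ i = d ∨ i = e) := by
  rw [hm]
  simp only [Nat.testBit_or, Nat.testBit_two_pow, Bool.or_eq_true, decide_eq_true_eq]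
  constructor
  · rintro (h | h | h | h | h) <;> simp [h]
  · rintro (h | h | h | h | h) <;> simp [h]

theorem tbx (M c i : ℕ) (hM : M.testBit c = true) :
    (M ^^^ 2 ^ c).testBit i = true ↔ (M.testBit i = true ∧ i ≠ c) := by
  rw [Nat.testBit_xor, Nat.testBit_two_pow]
  by_cases h : i = c
  · subst h
    simp [hM]
  · have h' : ¬ (c = i) := fun h'' => h h''.symm
    simp [h, h']

/-- sign for inserting `x` into `t0 < t1 < t2` -/
noncomputable def eps (t0 t1 t2 x : ℕ) : ℝ :=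
  if x < t0 then -1 else if x < t1 then 1 else if x < t2 then -1 else 1

theorem eps_ne (t0 t1 t2 x : ℕ) : eps t0 t1 t2 x = 1 ∨ eps t0 t1 t2 x = -1 := by
  unfold eps
  split_ifs <;> simp

theorem sortS (v : ℕ → Fin 5 → ℝ) (t0 t1 t2 a b : ℕ) (h01 : t0 < t1) (h12 : t1 < t2) (h2 : t2 ≤ 14)
    (hab : a < b) (hb : b ≤ 14) (ha0 : a ≠ t0) (ha1 : a ≠ t1) (ha2 : a ≠ t2) (hb0 : b ≠ t0)
    (hb1 : b ≠ t1) (hb2 : b ≠ t2) (m : ℕ)
    (hm : ∀ i, m.testBit i = true ↔ (i = t0 ∨ i = t1 ∨ i = t2 ∨ i = a ∨ i = b)) :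
    Dm v m = eps t0 t1 t2 a * eps t0 t1 t2 b * Dt v t0 t1 t2 a b := by
  have ea : ∀ x, x < t0 → eps t0 t1 t2 x = -1 := by intro x hx; unfold eps; rw [if_pos hx]
  have eb : ∀ x, t0 < x → x < t1 → eps t0 t1 t2 x = 1 := by
    intro x hx hx'; unfold eps; rw [if_neg (by omega), if_pos hx']
  have ec : ∀ x, t1 < x → x < t2 → eps t0 t1 t2 x = -1 := by
    intro x hx hx'; unfold eps; rw [if_neg (by omega), if_neg (by omega), if_pos hx']
  have ed : ∀ x, t2 < x → eps t0 t1 t2 x = 1 := by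
    intro x hx; unfold eps; rw [if_neg (by omega), if_neg (by omega), if_neg (by omega)]
  have hcase : ((a < t0) ∧ (b < t0)) ∨
      ((a < t0) ∧ (t0 < b ∧ b < t1)) ∨
      ((a < t0) ∧ (t1 < b ∧ b < t2)) ∨
      ((a < t0) ∧ (t2 < b)) ∨
      ((t0 < a ∧ a < t1) ∧ (t0 < b ∧ b < t1)) ∨
      ((t0 < a ∧ a < t1) ∧ (t1 < b ∧ b < t2)) ∨
      ((t0 < a ∧ a < t1) ∧ (t2 < b)) ∨
      ((t1 < a ∧ a < t2) ∧ (t1 < b ∧ b < t2)) ∨
      ((t1 < a ∧ a < t2) ∧ (t2 < b)) ∨
      ((t2 < a) ∧ (t2 < b)) := by omega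
  rcases hcase with h | h | h | h | h | h | h | h | h | h
  · rw [Dm_eq v m a b t0 t1 t2 (by omega) (by omega) (by omega) (by omega) (by omega) (fun i => (hm i).trans (by omega)),
      ea a (by omega), ea b (by omega),
      sw12 v a t0 b t1 t2, sw23 v a t0 t1 b t2, sw34 v a t0 t1 t2 b, sw01 v t0 a t1 t2 b, sw12 v t0 t1 a t2 b, sw23 v t0 t1 t2 a b]
    ring
  · rw [Dm_eq v m a t0 b t1 t2 (by omega) (by omega) (by omega) (by omega) (by omega) (fun i => (hm i).trans (by omega)),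
      ea a (by omega), eb b (by omega) (by omega),
      sw01 v t0 a b t1 t2, sw23 v t0 a t1 b t2, sw34 v t0 a t1 t2 b, sw12 v t0 t1 a t2 b, sw23 v t0 t1 t2 a b]
    ring
  · rw [Dm_eq v m a t0 t1 b t2 (by omega) (by omega) (by omega) (by omega) (by omega) (fun i => (hm i).trans (by omega)),
      ea a (by omega), ec b (by omega) (by omega),
      sw01 v t0 a t1 b t2, sw12 v t0 t1 a b t2, sw34 v t0 t1 a t2 b, sw23 v t0 t1 t2 a b]
    ring
  · rw [Dm_eq v m a t0 t1 t2 b (by omega) (by omega) (by omega) (by omega) (by omega) (fun i => (hm i).trans (by omega)),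
      ea a (by omega), ed b (by omega),
      sw01 v t0 a t1 t2 b, sw12 v t0 t1 a t2 b, sw23 v t0 t1 t2 a b]
    ring
  · rw [Dm_eq v m t0 a b t1 t2 (by omega) (by omega) (by omega) (by omega) (by omega) (fun i => (hm i).trans (by omega)),
      eb a (by omega) (by omega), eb b (by omega) (by omega),
      sw23 v t0 a t1 b t2, sw34 v t0 a t1 t2 b, sw12 v t0 t1 a t2 b, sw23 v t0 t1 t2 a b]
    ring
  · rw [Dm_eq v m t0 a t1 b t2 (by omega) (by omega) (by omega) (by omega) (by omega) (fun i => (hm i).trans (by omega)),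
      eb a (by omega) (by omega), ec b (by omega) (by omega),
      sw12 v t0 t1 a b t2, sw34 v t0 t1 a t2 b, sw23 v t0 t1 t2 a b]
    ring
  · rw [Dm_eq v m t0 a t1 t2 b (by omega) (by omega) (by omega) (by omega) (by omega) (fun i => (hm i).trans (by omega)),
      eb a (by omega) (by omega), ed b (by omega),
      sw12 v t0 t1 a t2 b, sw23 v t0 t1 t2 a b]
    ring
  · rw [Dm_eq v m t0 t1 a b t2 (by omega) (by omega) (by omega) (by omega) (by omega) (fun i => (hm i).trans (by omega)),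
      ec a (by omega) (by omega), ec b (by omega) (by omega),
      sw34 v t0 t1 a t2 b, sw23 v t0 t1 t2 a b]
    ring
  · rw [Dm_eq v m t0 t1 a t2 b (by omega) (by omega) (by omega) (by omega) (by omega) (fun i => (hm i).trans (by omega)),
      ec a (by omega) (by omega), ed b (by omega),
      sw23 v t0 t1 t2 a b]
    ring
  · rw [Dm_eq v m t0 t1 t2 a b (by omega) (by omega) (by omega) (by omega) (by omega) (fun i => (hm i).trans (by omega)),
      ed a (by omega), ed b (by omega)]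
    ring

theorem sortF (v : ℕ → Fin 5 → ℝ) (s0 s1 s2 s3 x : ℕ) (h01 : s0 < s1) (h12 : s1 < s2) (h23 : s2 < s3)
    (h3 : s3 ≤ 14) (hx : x ≤ 14) (hx0 : x ≠ s0) (hx1 : x ≠ s1) (hx2 : x ≠ s2) (hx3 : x ≠ s3) (m : ℕ)
    (hm : ∀ i, m.testBit i = true ↔ (i = s0 ∨ i = s1 ∨ i = s2 ∨ i = s3 ∨ i = x)) :
    Dm v m = (-1) ^ ((lt01 x s0 + lt01 x s1) + (lt01 x s2 + lt01 x s3)) * Dt v s0 s1 s2 s3 x := by
  have e1 : ∀ s, x < s → lt01 x s = 1 := by
    intro s hs
    unfold lt01
    rw [Nat.ble_eq_true_of_le hs]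
    rfl
  have e0 : ∀ s, s < x → lt01 x s = 0 := by
    intro s hs
    unfold lt01
    have : Nat.ble (Nat.succ x) s = false := by
      rw [← Bool.not_eq_true]
      intro h
      have := Nat.le_of_ble_eq_true h
      omega
    rw [this]
    rfl
  have hcase : x < s0 ∨ (s0 < x ∧ x < s1) ∨ (s1 < x ∧ x < s2) ∨ (s2 < x ∧ x < s3) ∨ s3 < x := by omega
  rcases hcase with h | h | h | h | h
  · rw [Dm_eq v m x s0 s1 s2 s3 (by omega) (by omega) (by omega) (by omega) (by omega) (fun i => (hm i).trans (by omega)),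
      e1 s0 (by omega), e1 s1 (by omega), e1 s2 (by omega), e1 s3 (by omega),
      sw01 v s0 x s1 s2 s3, sw12 v s0 s1 x s2 s3, sw23 v s0 s1 s2 x s3, sw34 v s0 s1 s2 s3 x]
    norm_num
  · rw [Dm_eq v m s0 x s1 s2 s3 (by omega) (by omega) (by omega) (by omega) (by omega) (fun i => (hm i).trans (by omega)),
      e0 s0 (by omega), e1 s1 (by omega), e1 s2 (by omega), e1 s3 (by omega),
      sw12 v s0 s1 x s2 s3, sw23 v s0 s1 s2 x s3, sw34 v s0 s1 s2 s3 x]
    norm_num
  · rw [Dm_eq v m s0 s1 x s2 s3 (by omega) (by omega) (by omega) (by omega) (by omega) (fun i => (hm i).trans (by omega)),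
      e0 s0 (by omega), e0 s1 (by omega), e1 s2 (by omega), e1 s3 (by omega),
      sw23 v s0 s1 s2 x s3, sw34 v s0 s1 s2 s3 x]
    norm_num
  · rw [Dm_eq v m s0 s1 s2 x s3 (by omega) (by omega) (by omega) (by omega) (by omega) (fun i => (hm i).trans (by omega)),
      e0 s0 (by omega), e0 s1 (by omega), e0 s2 (by omega), e1 s3 (by omega),
      sw34 v s0 s1 s2 s3 x]
    norm_num
  · rw [Dm_eq v m s0 s1 s2 s3 x (by omega) (by omega) (by omega) (by omega) (by omega) (fun i => (hm i).trans (by omega)),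
      e0 s0 (by omega), e0 s1 (by omega), e0 s2 (by omega), e0 s3 (by omega)]
    norm_num

end Pool.Agent.H284R2
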