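import Pool.Agent.H284R2.Geom2

set_option autoImplicit false

namespace Pool.Agent.H284R2

theorem Dm_ne_zero (v : ℕ → Fin 5 → ℝ) (hp : Pairs v) (m : ℕ) : Dm v m ≠ 0 := by
  have h1 : (elems m).Pairwise (· < ·) := (List.pairwise_lt_range (n := 15)).filter _
  have h2 : ∀ i ∈ elems m, i < 15 := by
    intro i hi
    rw [elems, List.mem_filter, List.mem_range] at hi
    exact hi.1
  unfold Dm
  split
  · rename_i a b c d e heq
    rw [heq] at h1 h2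
    simp only [List.pairwise_cons, List.mem_cons, List.not_mem_nil, or_false, forall_eq_or_imp,
      forall_eq, List.Pairwise.nil, and_true, false_imp_iff, implies_true] at h1
    have h3 := h2 e (by simp)
    apply Dt_ne_zero v hp a b c d e <;> omega
  · exact one_ne_zero

/-- sign as a number -/
noncomputable def ng (x : ℝ) : ℕ := by
  classical exact if x < 0 then 1 else 0

theorem ng_neg {x : ℝ} (h : x < 0) : ng x = 1 := by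
  unfold ng; rw [if_pos h]

theorem ng_pos {x : ℝ} (h : 0 < x) : ng x = 0 := by
  unfold ng; rw [if_neg (not_lt.2 h.le)]

theorem ng_eq_one {x : ℝ} : ng x = 1 ↔ x < 0 := by
  unfold ng; split_ifs with h <;> simp [h]

theorem sg_eq (v : ℕ → Fin 5 → ℝ) (m : ℕ) : sg v m = ng (Dm v m) := rfl

theorem sgpar (v : ℕ → Fin 5 → ℝ) (m n : ℕ) (D : ℝ) (hD : D ≠ 0) (h : Dm v m = (-1) ^ n * D) :
    (sg v m + n) % 2 = ng D := by
  rw [sg_eq, h]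
  rcases lt_or_gt_of_ne hD with h1 | h1 <;> rcases Nat.even_or_odd n with h2 | h2
  · rw [h2.neg_one_pow, one_mul, ng_neg h1]
    have := Nat.even_iff.1 h2
    omega
  · rw [h2.neg_one_pow, neg_one_mul, ng_neg h1, ng_pos (by linarith)]
    have := Nat.odd_iff.1 h2
    omega
  · rw [h2.neg_one_pow, one_mul, ng_pos h1]
    have := Nat.even_iff.1 h2
    omega
  · rw [h2.neg_one_pow, neg_one_mul, ng_pos h1, ng_neg (by linarith)]
    have := Nat.odd_iff.1 h2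
    omega

theorem prodpar (v : ℕ → Fin 5 → ℝ) (hp : Pairs v) (m1 m2 : ℕ) :
    (sg v m1 + sg v m2) % 2 = ng (Dm v m1 * Dm v m2) := by
  rw [sg_eq, sg_eq]
  rcases lt_or_gt_of_ne (Dm_ne_zero v hp m1) with h1 | h1 <;>
    rcases lt_or_gt_of_ne (Dm_ne_zero v hp m2) with h2 | h2
  · rw [ng_neg h1, ng_neg h2, ng_pos (mul_pos_of_neg_of_neg h1 h2)]
  · rw [ng_neg h1, ng_pos h2, ng_neg (mul_neg_of_neg_of_pos h1 h2)]
  · rw [ng_pos h1, ng_neg h2, ng_neg (mul_neg_of_pos_of_neg h1 h2)]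
  · rw [ng_pos h1, ng_pos h2, ng_pos (mul_pos h1 h2)]

theorem gp (v : ℕ → Fin 5 → ℝ) (t0 t1 t2 a b c d : ℕ) :
    Dt v t0 t1 t2 a b * Dt v t0 t1 t2 c d - Dt v t0 t1 t2 a c * Dt v t0 t1 t2 b d
      + Dt v t0 t1 t2 a d * Dt v t0 t1 t2 b c = 0 := by
  have h := plucker' v t0 t1 t2 b c d (dfn v t0 t1 t2 a)
  simp only [dfn_apply] at h
  rw [Dt_rep v t0 t1 t2 a t0 0 4 (by decide) rfl, Dt_rep v t0 t1 t2 a t1 1 4 (by decide) rfl,
    Dt_rep v t0 t1 t2 a t2 2 4 (by decide) rfl] at h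
  linarith

theorem tbT (T m t0 t1 t2 a b : ℕ) (hT : T = 2 ^ t0 ||| (2 ^ t1 ||| 2 ^ t2))
    (hm : m = T ||| (2 ^ a ||| 2 ^ b)) (i : ℕ) :
    m.testBit i = true ↔ (i = t0 ∨ i = t1 ∨ i = t2 ∨ i = a ∨ i = b) := by
  rw [hm, hT]
  simp only [Nat.testBit_or, Nat.testBit_two_pow, Bool.or_eq_true, decide_eq_true_eq]
  constructor
  · rintro ((h | h | h) | h | h) <;> simp [h]
  · rintro (h | h | h | h | h) <;> simp [h]

theorem good_G (v : ℕ → Fin 5 → ℝ) (hp : Pairs v) :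
    ∀ t0 t1 t2 a b c d, t0 < t1 → t1 < t2 → t2 ≤ 14 → a < b → b < c → c < d → d ≤ 14 →
    (∀ s, s = a ∨ s = b ∨ s = c ∨ s = d → s ≠ t0 ∧ s ≠ t1 ∧ s ≠ t2) →
    ∀ T, T = 2 ^ t0 ||| (2 ^ t1 ||| 2 ^ t2) →
    ¬ ((sg v (T ||| (2 ^ a ||| 2 ^ b)) + sg v (T ||| (2 ^ c ||| 2 ^ d))) % 2 =
        (sg v (T ||| (2 ^ a ||| 2 ^ c)) + sg v (T ||| (2 ^ b ||| 2 ^ d)) + 1) % 2 ∧
      (sg v (T ||| (2 ^ a ||| 2 ^ b)) + sg v (T ||| (2 ^ c ||| 2 ^ d))) % 2 =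
        (sg v (T ||| (2 ^ a ||| 2 ^ d)) + sg v (T ||| (2 ^ b ||| 2 ^ c))) % 2) := by
  intro t0 t1 t2 a b c d h01 h12 h2 hab hbc hcd hd hdis T hT
  obtain ⟨ha0, ha1, ha2⟩ := hdis a (by simp)
  obtain ⟨hb0, hb1, hb2⟩ := hdis b (by simp)
  obtain ⟨hc0, hc1, hc2⟩ := hdis c (by simp)
  obtain ⟨hd0, hd1, hd2⟩ := hdis d (by simp)
  rw [Nat.add_mod (_ + _) 1 2, prodpar v hp, prodpar v hp, prodpar v hp]
  have k1 := sortS v t0 t1 t2 a b h01 h12 h2 hab (by omega) ha0 ha1 ha2 hb0 hb1 hb2 _ (tbT T _ t0 t1 t2 a b hT rfl)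
  have k2 := sortS v t0 t1 t2 c d h01 h12 h2 hcd (by omega) hc0 hc1 hc2 hd0 hd1 hd2 _ (tbT T _ t0 t1 t2 c d hT rfl)
  have k3 := sortS v t0 t1 t2 a c h01 h12 h2 (by omega) (by omega) ha0 ha1 ha2 hc0 hc1 hc2 _ (tbT T _ t0 t1 t2 a c hT rfl)
  have k4 := sortS v t0 t1 t2 b d h01 h12 h2 (by omega) (by omega) hb0 hb1 hb2 hd0 hd1 hd2 _ (tbT T _ t0 t1 t2 b d hT rfl)
  have k5 := sortS v t0 t1 t2 a d h01 h12 h2 (by omega) (by omega) ha0 ha1 ha2 hd0 hd1 hd2 _ (tbT T _ t0 t1 t2 a d hT rfl)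
  have k6 := sortS v t0 t1 t2 b c h01 h12 h2 (by omega) (by omega) hb0 hb1 hb2 hc0 hc1 hc2 _ (tbT T _ t0 t1 t2 b c hT rfl)
  have hgp := gp v t0 t1 t2 a b c d
  have n1 := mul_ne_zero (Dm_ne_zero v hp (T ||| (2 ^ a ||| 2 ^ b))) (Dm_ne_zero v hp (T ||| (2 ^ c ||| 2 ^ d)))
  have n2 := mul_ne_zero (Dm_ne_zero v hp (T ||| (2 ^ a ||| 2 ^ c))) (Dm_ne_zero v hp (T ||| (2 ^ b ||| 2 ^ d)))
  have n3 := mul_ne_zero (Dm_ne_zero v hp (T ||| (2 ^ a ||| 2 ^ d))) (Dm_ne_zero v hp (T ||| (2 ^ b ||| 2 ^ c)))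
  have hsum : Dm v (T ||| (2 ^ a ||| 2 ^ b)) * Dm v (T ||| (2 ^ c ||| 2 ^ d))
      - Dm v (T ||| (2 ^ a ||| 2 ^ c)) * Dm v (T ||| (2 ^ b ||| 2 ^ d))
      + Dm v (T ||| (2 ^ a ||| 2 ^ d)) * Dm v (T ||| (2 ^ b ||| 2 ^ c)) = 0 := by
    rw [k1, k2, k3, k4, k5, k6]
    linear_combination (eps t0 t1 t2 a * eps t0 t1 t2 b * eps t0 t1 t2 c * eps t0 t1 t2 d) * hgp
  rintro ⟨e1, e2⟩
  rcases lt_or_gt_of_ne n1 with q1 | q1 <;> rcases lt_or_gt_of_ne n2 with q2 | q2 <;>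
    rcases lt_or_gt_of_ne n3 with q3 | q3 <;>
    simp only [ng_neg, ng_pos, q1, q2, q3] at e1 e2 <;> first | omega | linarith

theorem good_F (FT : ℕ) (v : ℕ → Fin 5 → ℝ) (hp : Pairs v)
    (hFT : ∀ i < 77, fv FT i 0 < fv FT i 1 ∧ fv FT i 1 < fv FT i 2 ∧ fv FT i 2 < fv FT i 3 ∧ fv FT i 3 ≤ 13)
    (hfac : ∀ i < 77, ∃ g : Fn, (g (v (fv FT i 0)) = 0 ∧ g (v (fv FT i 1)) = 0 ∧ g (v (fv FT i 2)) = 0 ∧
      g (v (fv FT i 3)) = 0) ∧ ∀ k ≤ 13, k ≠ fv FT i 0 → k ≠ fv FT i 1 → k ≠ fv FT i 2 → k ≠ fv FT i 3 →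
      0 < g (v k)) :
    ∀ i < 77, ∀ x y, x ≤ 13 → y ≤ 13 → tb (fM FT i) x = 0 → tb (fM FT i) y = 0 →
    (sg v (fM FT i ||| 2 ^ x) + cnt FT i x) % 2 = (sg v (fM FT i ||| 2 ^ y) + cnt FT i y) % 2 := by
  intro i hi x y hx hy hx' hy'
  obtain ⟨f1, f2, f3, f4⟩ := hFT i hi
  obtain ⟨g, ⟨g0, g1, g2, g3⟩, gp⟩ := hfac i hi
  have hne : ∀ z, tb (fM FT i) z = 0 → z ≠ fv FT i 0 ∧ z ≠ fv FT i 1 ∧ z ≠ fv FT i 2 ∧ z ≠ fv FT i 3 := by
    intro z hz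
    rw [tb_zero_iff] at hz
    unfold fM at hz
    simp only [Nat.testBit_or, Nat.testBit_two_pow, Bool.or_eq_false_iff, decide_eq_false_iff_not] at hz
    obtain ⟨a, b, c, d⟩ := hz
    exact ⟨fun h => a h.symm, fun h => b h.symm, fun h => c h.symm, fun h => d h.symm⟩
  obtain ⟨x0, x1, x2, x3⟩ := hne x hx'
  obtain ⟨y0, y1, y2, y3⟩ := hne y hy'
  have hmem : ∀ z i', (fM FT i ||| 2 ^ z).testBit i' = true ↔
      (i' = fv FT i 0 ∨ i' = fv FT i 1 ∨ i' = fv FT i 2 ∨ i' = fv FT i 3 ∨ i' = z) := by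
    intro z i'
    unfold fM
    simp only [Nat.testBit_or, Nat.testBit_two_pow, Bool.or_eq_true, decide_eq_true_eq]
    constructor
    · rintro ((h | h | h | h) | h) <;> simp [h]
    · rintro (h | h | h | h | h) <;> simp [h]
  have kx := sortF v (fv FT i 0) (fv FT i 1) (fv FT i 2) (fv FT i 3) x f1 f2 f3 (by omega) (by omega)
    x0 x1 x2 x3 _ (hmem x)
  have ky := sortF v (fv FT i 0) (fv FT i 1) (fv FT i 2) (fv FT i 3) y f1 f2 f3 (by omega) (by omega)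
    y0 y1 y2 y3 _ (hmem y)
  have nx : Dt v (fv FT i 0) (fv FT i 1) (fv FT i 2) (fv FT i 3) x ≠ 0 := by
    intro h
    rw [h, mul_zero] at kx
    exact Dm_ne_zero v hp _ kx
  have ny : Dt v (fv FT i 0) (fv FT i 1) (fv FT i 2) (fv FT i 3) y ≠ 0 := by
    intro h
    rw [h, mul_zero] at ky
    exact Dm_ne_zero v hp _ ky
  have px := sgpar v _ (cnt FT i x) _ nx kx
  have py := sgpar v _ (cnt FT i y) _ ny ky
  rw [px, py]
  have gx := gp x hx x0 x1 x2 x3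
  have gy := gp y hy y0 y1 y2 y3
  have hpl := plucker' v (fv FT i 0) (fv FT i 1) (fv FT i 2) (fv FT i 3) x y g
  rw [g0, g1, g2, g3] at hpl
  have hpl' : Dt v (fv FT i 0) (fv FT i 1) (fv FT i 2) (fv FT i 3) y * g (v x)
      = Dt v (fv FT i 0) (fv FT i 1) (fv FT i 2) (fv FT i 3) x * g (v y) := by linarith
  rcases lt_or_gt_of_ne nx with q1 | q1 <;> rcases lt_or_gt_of_ne ny with q2 | q2
  · rw [ng_neg q1, ng_neg q2]
  · exfalso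
    have := mul_pos q2 gx
    have := mul_neg_of_neg_of_pos q1 gy
    linarith
  · exfalso
    have := mul_neg_of_neg_of_pos q2 gx
    have := mul_pos q1 gy
    linarith
  · rw [ng_pos q1, ng_pos q2]

/-- the coefficients of the circuit on six vectors -/
noncomputable def Ec (v : ℕ → Fin 5 → ℝ) (c : ℕ → ℕ) (k : ℕ) : ℝ :=
  match k with
  | 0 => Dt v (c 2) (c 3) (c 4) (c 5) (c 6)
  | 1 => - Dt v (c 1) (c 3) (c 4) (c 5) (c 6)
  | 2 => Dt v (c 1) (c 2) (c 4) (c 5) (c 6)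
  | 3 => - Dt v (c 1) (c 2) (c 3) (c 5) (c 6)
  | 4 => Dt v (c 1) (c 2) (c 3) (c 4) (c 6)
  | _ => - Dt v (c 1) (c 2) (c 3) (c 4) (c 5)

theorem tb6 (M : ℕ) (c : ℕ → ℕ)
    (hM : M = 2 ^ c 1 ||| (2 ^ c 2 ||| (2 ^ c 3 ||| (2 ^ c 4 ||| (2 ^ c 5 ||| 2 ^ c 6))))) (i : ℕ) :
    M.testBit i = true ↔ (i = c 1 ∨ i = c 2 ∨ i = c 3 ∨ i = c 4 ∨ i = c 5 ∨ i = c 6) := by
  rw [hM]
  simp only [Nat.testBit_or, Nat.testBit_two_pow, Bool.or_eq_true, decide_eq_true_eq]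
  constructor
  · rintro (h | h | h | h | h | h) <;> simp [h]
  · rintro (h | h | h | h | h | h) <;> simp [h]

theorem drop_a (i a b c d e f : ℕ) (h1 : a < b) (h2 : b < c) (h3 : c < d) (h4 : d < e) (h5 : e < f) :
    ((i = a ∨ i = b ∨ i = c ∨ i = d ∨ i = e ∨ i = f) ∧ i ≠ a) ↔ (i = b ∨ i = c ∨ i = d ∨ i = e ∨ i = f) := by
  omega
theorem drop_b (i a b c d e f : ℕ) (h1 : a < b) (h2 : b < c) (h3 : c < d) (h4 : d < e) (h5 : e < f) :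
    ((i = a ∨ i = b ∨ i = c ∨ i = d ∨ i = e ∨ i = f) ∧ i ≠ b) ↔ (i = a ∨ i = c ∨ i = d ∨ i = e ∨ i = f) := by
  omega
theorem drop_c (i a b c d e f : ℕ) (h1 : a < b) (h2 : b < c) (h3 : c < d) (h4 : d < e) (h5 : e < f) :
    ((i = a ∨ i = b ∨ i = c ∨ i = d ∨ i = e ∨ i = f) ∧ i ≠ c) ↔ (i = a ∨ i = b ∨ i = d ∨ i = e ∨ i = f) := by
  omega
theorem drop_d (i a b c d e f : ℕ) (h1 : a < b) (h2 : b < c) (h3 : c < d) (h4 : d < e) (h5 : e < f) :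
    ((i = a ∨ i = b ∨ i = c ∨ i = d ∨ i = e ∨ i = f) ∧ i ≠ d) ↔ (i = a ∨ i = b ∨ i = c ∨ i = e ∨ i = f) := by
  omega
theorem drop_e (i a b c d e f : ℕ) (h1 : a < b) (h2 : b < c) (h3 : c < d) (h4 : d < e) (h5 : e < f) :
    ((i = a ∨ i = b ∨ i = c ∨ i = d ∨ i = e ∨ i = f) ∧ i ≠ e) ↔ (i = a ∨ i = b ∨ i = c ∨ i = d ∨ i = f) := by
  omega
theorem drop_f (i a b c d e f : ℕ) (h1 : a < b) (h2 : b < c) (h3 : c < d) (h4 : d < e) (h5 : e < f) :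
    ((i = a ∨ i = b ∨ i = c ∨ i = d ∨ i = e ∨ i = f) ∧ i ≠ f) ↔ (i = a ∨ i = b ∨ i = c ∨ i = d ∨ i = e) := by
  omega

theorem lt_tr {a b c d : ℕ} (h1 : a < b) (h2 : b < c) (h3 : c < d) : a < d := lt_trans h1 (lt_trans h2 h3)

theorem drop_eq (v : ℕ → Fin 5 → ℝ) (c : ℕ → ℕ) (h1 : c 1 < c 2) (h2 : c 2 < c 3) (h3 : c 3 < c 4)
    (h4 : c 4 < c 5) (h5 : c 5 < c 6) (h6 : c 6 ≤ 14) (M : ℕ)
    (hMb : ∀ i, M.testBit i = true ↔ (i = c 1 ∨ i = c 2 ∨ i = c 3 ∨ i = c 4 ∨ i = c 5 ∨ i = c 6))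
    (k : ℕ) (hk : k = 0 ∨ k = 1 ∨ k = 2 ∨ k = 3 ∨ k = 4 ∨ k = 5) :
    Dm v (M ^^^ 2 ^ c (k + 1)) = (-1) ^ k * Ec v c k := by
  have hMk : M.testBit (c (k + 1)) = true := by
    rw [hMb]
    rcases hk with rfl | rfl | rfl | rfl | rfl | rfl <;> simp
  have hb : ∀ i, (M ^^^ 2 ^ c (k + 1)).testBit i = true ↔
      ((i = c 1 ∨ i = c 2 ∨ i = c 3 ∨ i = c 4 ∨ i = c 5 ∨ i = c 6) ∧ i ≠ c (k + 1)) := by
    intro i
    rw [tbx M _ i hMk, hMb]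
  have h5' : c 5 ≤ 14 := le_trans h5.le h6
  rcases hk with rfl | rfl | rfl | rfl | rfl | rfl
  · rw [Dm_eq v _ (c 2) (c 3) (c 4) (c 5) (c 6) h2 h3 h4 h5 h6
      (fun i => (hb i).trans (drop_a i _ _ _ _ _ _ h1 h2 h3 h4 h5))]
    simp [Ec]
  · rw [Dm_eq v _ (c 1) (c 3) (c 4) (c 5) (c 6) (h1.trans h2) h3 h4 h5 h6
      (fun i => (hb i).trans (drop_b i _ _ _ _ _ _ h1 h2 h3 h4 h5))]
    simp [Ec]
  · rw [Dm_eq v _ (c 1) (c 2) (c 4) (c 5) (c 6) h1 (h2.trans h3) h4 h5 h6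
      (fun i => (hb i).trans (drop_c i _ _ _ _ _ _ h1 h2 h3 h4 h5))]
    simp [Ec]
  · rw [Dm_eq v _ (c 1) (c 2) (c 3) (c 5) (c 6) h1 h2 (h3.trans h4) h5 h6
      (fun i => (hb i).trans (drop_d i _ _ _ _ _ _ h1 h2 h3 h4 h5))]
    simp only [Ec]; ring
  · rw [Dm_eq v _ (c 1) (c 2) (c 3) (c 4) (c 6) h1 h2 h3 (h4.trans h5) h6
      (fun i => (hb i).trans (drop_e i _ _ _ _ _ _ h1 h2 h3 h4 h5))]
    simp only [Ec]; ring
  · rw [Dm_eq v _ (c 1) (c 2) (c 3) (c 4) (c 5) h1 h2 h3 h4 h5'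
      (fun i => (hb i).trans (drop_f i _ _ _ _ _ _ h1 h2 h3 h4 h5))]
    simp only [Ec]; ring

theorem inj6 (a b c d e f : ℕ) (h1 : a < b) (h2 : b < c) (h3 : c < d) (h4 : d < e) (h5 : e < f) :
    Function.Injective (![a, b, c, d, e, f] : Fin 6 → ℕ) := by
  have : StrictMono (![a, b, c, d, e, f] : Fin 6 → ℕ) := by
    rw [Fin.strictMono_iff_lt_succ]
    intro i
    fin_cases i
    · exact h1
    · exact h2
    · exact h3
    · exact h4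
    · exact h5
  exact this.injective

theorem bd6 (a b c d e f : ℕ) (h1 : a < b) (h2 : b < c) (h3 : c < d) (h4 : d < e) (h5 : e < f) (h6 : f ≤ 14) :
    ∀ i, (![a, b, c, d, e, f] : Fin 6 → ℕ) i ≤ 14 := by
  intro i
  fin_cases i
  · show a ≤ 14; omega
  · show b ≤ 14; omega
  · show c ≤ 14; omega
  · show d ≤ 14; omega
  · show e ≤ 14; omega
  · show f ≤ 14; omega

theorem no4 (E : Fin 6 → ℝ) (hpos : 3 ≤ (Finset.univ.filter fun i => 0 < E i).card)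
    (hneg : 3 ≤ (Finset.univ.filter fun i => E i < 0).card) (p q r t : Fin 6) (hpq : p ≠ q)
    (hpr : p ≠ r) (hqr : q ≠ r) (htp : t ≠ p) (htq : t ≠ q) (htr : t ≠ r) (x : ℕ) (hx : x < 2)
    (sp : ng (E p) = x) (sq : ng (E q) = x) (sr : ng (E r) = x) (st : ng (E t) = x) : False := by
  set U : Finset (Fin 6) := {p, q, r, t} with hU
  have hUc : U.card = 4 := by
    rw [hU, Finset.card_insert_of_notMem, Finset.card_insert_of_notMem, Finset.card_insert_of_notMem,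
      Finset.card_singleton]
    · simpa using htr.symm
    · simp only [Finset.mem_insert, Finset.mem_singleton, not_or]
      exact ⟨hqr, htq.symm⟩
    · simp only [Finset.mem_insert, Finset.mem_singleton, not_or]
      exact ⟨hpq, hpr, htp.symm⟩
  have hUx : ∀ i ∈ U, ng (E i) = x := by
    intro i hi
    rw [hU] at hi
    simp only [Finset.mem_insert, Finset.mem_singleton] at hi
    rcases hi with rfl | rfl | rfl | rfl
    · exact sp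
    · exact sq
    · exact sr
    · exact st
  have hx' : x = 0 ∨ x = 1 := by omega
  rcases hx' with hx0 | hx1
  · have hd : Disjoint U (Finset.univ.filter fun i : Fin 6 => E i < 0) := by
      rw [Finset.disjoint_left]
      intro i hi hi'
      rw [Finset.mem_filter] at hi'
      have := hUx i hi
      rw [ng_neg hi'.2] at this
      omega
    have e1 := Finset.card_union_of_disjoint hd
    have e2 := Finset.card_le_univ (U ∪ (Finset.univ.filter fun i : Fin 6 => E i < 0))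
    rw [Fintype.card_fin] at e2
    omega
  · have hd : Disjoint U (Finset.univ.filter fun i : Fin 6 => 0 < E i) := by
      rw [Finset.disjoint_left]
      intro i hi hi'
      rw [Finset.mem_filter] at hi'
      have := hUx i hi
      rw [ng_pos hi'.2] at this
      omega
    have e1 := Finset.card_union_of_disjoint hd
    have e2 := Finset.card_le_univ (U ∪ (Finset.univ.filter fun i : Fin 6 => 0 < E i))
    rw [Fintype.card_fin] at e2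
    omega

theorem circ6 (v : ℕ → Fin 5 → ℝ) (c : ℕ → ℕ) (f : Fn) :
    ∑ i : Fin 6, Ec v c i * f (v ((![c 1, c 2, c 3, c 4, c 5, c 6] : Fin 6 → ℕ) i)) = 0 := by
  have := plucker' v (c 1) (c 2) (c 3) (c 4) (c 5) (c 6) f
  rw [Fin.sum_univ_six]
  simp only [Matrix.cons_val, Fin.coe_ofNat_eq_mod, Ec, Nat.reduceMod, Nat.zero_mod, Nat.one_mod]
  linarith

theorem sgx (s k x w : ℕ) (hx : x < 2) (h : s = (x + k) % 2) (hw : (s + k) % 2 = w) : w = x := by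
  omega

theorem pos_cases (k : ℕ) (hk : k ≤ 5) : k = 0 ∨ k = 1 ∨ k = 2 ∨ k = 3 ∨ k = 4 ∨ k = 5 := by omega

theorem good_B (v : ℕ → Fin 5 → ℝ) (hp : Pairs v) :
    ∀ c : ℕ → ℕ, c 1 < c 2 → c 2 < c 3 → c 3 < c 4 → c 4 < c 5 → c 5 < c 6 → c 6 ≤ 14 →
    ∀ M, M = 2 ^ c 1 ||| (2 ^ c 2 ||| (2 ^ c 3 ||| (2 ^ c 4 ||| (2 ^ c 5 ||| 2 ^ c 6)))) →
    ∀ p q r t, p < q → q < r → r ≤ 5 → t ≤ 5 → t ≠ p → t ≠ q → t ≠ r → ∀ x < 2,
    sg v (M ^^^ 2 ^ c (p + 1)) = (x + p) % 2 → sg v (M ^^^ 2 ^ c (q + 1)) = (x + q) % 2 →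
    sg v (M ^^^ 2 ^ c (r + 1)) = (x + r) % 2 → sg v (M ^^^ 2 ^ c (t + 1)) ≠ (x + t) % 2 := by
  intro c h1 h2 h3 h4 h5 h6 M hM p q r t hpq hqr hr ht htp htq htr x hx ep eq er et
  have hdrop : ∀ k, k ≤ 5 → Dm v (M ^^^ 2 ^ c (k + 1)) = (-1) ^ k * Ec v c k :=
    fun k hk => drop_eq v c h1 h2 h3 h4 h5 h6 M (tb6 M c hM) k (pos_cases k hk)
  clear hM
  have hE : ∀ k, k ≤ 5 → Ec v c k ≠ 0 := by
    intro k hk h
    have := hdrop k hk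
    rw [h, mul_zero] at this
    exact Dm_ne_zero v hp _ this
  have hsign : ∀ k, k ≤ 5 → sg v (M ^^^ 2 ^ c (k + 1)) = (x + k) % 2 → ng (Ec v c k) = x := by
    intro k hk h
    exact sgx _ k x _ hx h (sgpar v _ k _ (hE k hk) (hdrop k hk))
  have hq5 : q ≤ 5 := le_trans hqr.le hr
  have hp5 : p ≤ 5 := le_trans hpq.le hq5
  have sp := hsign p hp5 ep
  have sq := hsign q hq5 eq
  have sr := hsign r hr er
  have st := hsign t ht et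
  have hs := inj6 _ _ _ _ _ _ h1 h2 h3 h4 h5
  have hs14 := bd6 _ _ _ _ _ _ h1 h2 h3 h4 h5 h6
  have hne : ∃ i : Fin 6, Ec v c i ≠ 0 := ⟨0, hE 0 (Nat.zero_le 5)⟩
  have c1 := three_pos v hp (le_refl 6) _ hs hs14 (fun i : Fin 6 => Ec v c i) (circ6 v c) hne
  have c2 := three_neg v hp (le_refl 6) _ hs hs14 (fun i : Fin 6 => Ec v c i) (circ6 v c) hne
  refine no4 (fun i : Fin 6 => Ec v c i) c1 c2 ⟨p, Nat.lt_succ_of_le hp5⟩ ⟨q, Nat.lt_succ_of_le hq5⟩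
    ⟨r, Nat.lt_succ_of_le hr⟩ ⟨t, Nat.lt_succ_of_le ht⟩ ?_ ?_ ?_ ?_ ?_ ?_ x hx sp sq sr st
  · exact fun h => hpq.ne (Fin.mk.inj_iff.1 h)
  · exact fun h => (hpq.trans hqr).ne (Fin.mk.inj_iff.1 h)
  · exact fun h => hqr.ne (Fin.mk.inj_iff.1 h)
  · exact fun h => htp (Fin.mk.inj_iff.1 h)
  · exact fun h => htq (Fin.mk.inj_iff.1 h)
  · exact fun h => htr (Fin.mk.inj_iff.1 h)

theorem good_sg (FT : ℕ) (v : ℕ → Fin 5 → ℝ) (hp : Pairs v)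
    (hFT : ∀ i < 77, fv FT i 0 < fv FT i 1 ∧ fv FT i 1 < fv FT i 2 ∧ fv FT i 2 < fv FT i 3 ∧ fv FT i 3 ≤ 13)
    (hfac : ∀ i < 77, ∃ g : Fn, (g (v (fv FT i 0)) = 0 ∧ g (v (fv FT i 1)) = 0 ∧ g (v (fv FT i 2)) = 0 ∧
      g (v (fv FT i 3)) = 0) ∧ ∀ k ≤ 13, k ≠ fv FT i 0 → k ≠ fv FT i 1 → k ≠ fv FT i 2 → k ≠ fv FT i 3 →
      0 < g (v k)) : Good FT (sg v) where
  lt2 := sg_lt v
  F := good_F FT v hp hFT hfac
  B := good_B v hp
  G := good_G v hp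

end Pool.Agent.H284R2
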