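import Pool.Agent.H284R2.Check
import Pool.Agent.H284R2.Data

set_option autoImplicit false

namespace Pool.Agent.H284R2

theorem run_cert : run FT cert (2 ^ (2 * 31)) [] = true := by decide +kernel

end Pool.Agent.H284R2
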