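import Pool.Agent.H284R2.Sound
import Pool.Agent.H284R2.Run

set_option autoImplicit false

namespace Pool.Agent.H284R2

theorem no_good (σ : ℕ → ℕ) (hg : Good FT σ) : False := no_good_gen FT cert 31 run_cert σ hg

end Pool.Agent.H284R2
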