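import Pool.Agent.H284R2.Check

set_option autoImplicit false

namespace Pool.Agent.H284R2

/-- the bits of the facet number `i` -/
def fv (FT i j : ℕ) : ℕ := dg FT (4 * i + j)

def fM (FT i : ℕ) : ℕ := 2 ^ (fv FT i 0) ||| (2 ^ (fv FT i 1) ||| (2 ^ (fv FT i 2) ||| 2 ^ (fv FT i 3)))

def cnt (FT i x : ℕ) : ℕ :=
  (lt01 x (fv FT i 0) + lt01 x (fv FT i 1)) + (lt01 x (fv FT i 2) + lt01 x (fv FT i 3))

/-- the sign function `σ` satisfies all the constraints -/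
structure Good (FT : ℕ) (σ : ℕ → ℕ) : Prop where
  lt2 : ∀ m, σ m < 2
  F : ∀ i < 77, ∀ x y, x ≤ 13 → y ≤ 13 → tb (fM FT i) x = 0 → tb (fM FT i) y = 0 →
    (σ (fM FT i ||| 2 ^ x) + cnt FT i x) % 2 = (σ (fM FT i ||| 2 ^ y) + cnt FT i y) % 2
  B : ∀ c : ℕ → ℕ, c 1 < c 2 → c 2 < c 3 → c 3 < c 4 → c 4 < c 5 → c 5 < c 6 → c 6 ≤ 14 →
    ∀ M, M = 2 ^ c 1 ||| (2 ^ c 2 ||| (2 ^ c 3 ||| (2 ^ c 4 ||| (2 ^ c 5 ||| 2 ^ c 6)))) →
    ∀ p q r t, p < q → q < r → r ≤ 5 → t ≤ 5 → t ≠ p → t ≠ q → t ≠ r → ∀ x < 2,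
    σ (M ^^^ 2 ^ c (p + 1)) = (x + p) % 2 → σ (M ^^^ 2 ^ c (q + 1)) = (x + q) % 2 →
    σ (M ^^^ 2 ^ c (r + 1)) = (x + r) % 2 → σ (M ^^^ 2 ^ c (t + 1)) ≠ (x + t) % 2
  G : ∀ t0 t1 t2 a b c d, t0 < t1 → t1 < t2 → t2 ≤ 14 → a < b → b < c → c < d → d ≤ 14 →
    (∀ s, s = a ∨ s = b ∨ s = c ∨ s = d → s ≠ t0 ∧ s ≠ t1 ∧ s ≠ t2) →
    ∀ T, T = 2 ^ t0 ||| (2 ^ t1 ||| 2 ^ t2) →
    ¬ ((σ (T ||| (2 ^ a ||| 2 ^ b)) + σ (T ||| (2 ^ c ||| 2 ^ d))) % 2 =
        (σ (T ||| (2 ^ a ||| 2 ^ c)) + σ (T ||| (2 ^ b ||| 2 ^ d)) + 1) % 2 ∧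
      (σ (T ||| (2 ^ a ||| 2 ^ b)) + σ (T ||| (2 ^ c ||| 2 ^ d))) % 2 =
        (σ (T ||| (2 ^ a ||| 2 ^ d)) + σ (T ||| (2 ^ b ||| 2 ^ c))) % 2)

def Sem (σ : ℕ → ℕ) (S : ℕ) : Prop := ∀ m v, v < 2 → tb S (2 * m + v) = 1 → σ m = v

theorem tb_iff (S l : ℕ) : tb S l = 1 ↔ S.testBit l = true := by
  show (S >>> l) % 2 = 1 ↔ _
  rw [Nat.shiftRight_eq_div_pow, Nat.testBit_eq_decide_div_mod_eq]
  simp

theorem tb_zero_iff (S l : ℕ) : tb S l = 0 ↔ S.testBit l = false := by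
  show (S >>> l) % 2 = 0 ↔ _
  rw [Nat.shiftRight_eq_div_pow, Nat.testBit_eq_decide_div_mod_eq]
  have := Nat.mod_two_eq_zero_or_one (S / 2 ^ l)
  rcases this with h | h <;> simp [h]

theorem has_iff (S l : ℕ) : has S l = true ↔ tb S l = 1 := by
  unfold has
  rw [Nat.beq_eq]

theorem sem_has {σ : ℕ → ℕ} {S : ℕ} (h : Sem σ S) {m v : ℕ} (hv : v < 2)
    (hh : has S (2 * m + v) = true) : σ m = v :=
  h m v hv ((has_iff _ _).1 hh)

theorem sem_ins {σ : ℕ → ℕ} {S : ℕ} (h : Sem σ S) {m v : ℕ} (hv : v < 2) (hm : σ m = v) :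
    Sem σ (ins S (2 * m + v)) := by
  intro m' v' hv' ht
  rw [tb_iff] at ht
  have h1 : (S ||| 2 ^ (2 * m + v)).testBit (2 * m' + v') = true := ht
  rw [Nat.testBit_or, Bool.or_eq_true] at h1
  rcases h1 with h1 | h1
  · exact h m' v' hv' ((tb_iff _ _).2 h1)
  · rw [Nat.testBit_two_pow] at h1
    have h2 : 2 * m + v = 2 * m' + v' := by simpa using h1
    have h3 : m = m' := by omega
    have h4 : v = v' := by omega
    rw [← h3, ← h4]; exact hm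

def Ref (σ : ℕ → ℕ) (S : ℕ) (st : List ℕ) : Prop := ¬ Sem σ S ∧ ∀ s ∈ st, ¬ Sem σ s

theorem stepC_sound {σ : ℕ → ℕ} {n : ℕ} {K : ℕ → List ℕ → Bool}
    (hK : ∀ S st, K S st = true → Ref σ S st) {S : ℕ} {st : List ℕ}
    (h : stepC n K S st = true) : Ref σ S st := by
  unfold stepC at h
  rw [frc_eq] at h
  set m := Nat.shiftRight n 4
  rw [Bool.and_eq_true, Bool.and_eq_true] at h
  obtain ⟨h1, h2, h3⟩ := h
  refine ⟨fun hs => ?_, ?_⟩
  · have e1 : σ m = 0 := sem_has hs (by norm_num) (by simpa using h1)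
    have e2 : σ m = 1 := sem_has hs (by norm_num) (by simpa using h2)
    omega
  · cases st with
    | nil => intro s hs; simp at hs
    | cons s t =>
      have h4 : K s t = true := h3
      have h5 := hK s t h4
      intro s' hs'
      rcases List.mem_cons.1 hs' with rfl | hs''
      · exact h5.1
      · exact h5.2 s' hs''

theorem stepD_sound {FT : ℕ} {σ : ℕ → ℕ} (hg : Good FT σ) {n : ℕ} {K : ℕ → List ℕ → Bool}
    (hK : ∀ S st, K S st = true → Ref σ S st) {S : ℕ} {st : List ℕ}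
    (h : stepD n K S st = true) : Ref σ S st := by
  unfold stepD at h
  rw [frc_eq, frc_eq, frc_eq, frc_eq] at h
  set m := Nat.shiftRight n 5
  set va := Nat.mod (Nat.shiftRight n 4) 2 with hva
  have hva2 : va < 2 := Nat.mod_lt _ (by norm_num)
  obtain ⟨h1, h2⟩ := hK _ _ h
  refine ⟨fun hs => ?_, fun s hs => h2 s (List.mem_cons_of_mem _ hs)⟩
  have hlt := hg.lt2 m
  by_cases hm : σ m = va
  · exact h1 (sem_ins hs hva2 hm)
  · have hm' : σ m = 1 - va := by omega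
    have hlt' : 1 - va < 2 := by omega
    exact h2 _ List.mem_cons_self (sem_ins hs hlt' hm')

theorem stepF_sound {FT : ℕ} {σ : ℕ → ℕ} (hg : Good FT σ) {n : ℕ} {K : ℕ → List ℕ → Bool}
    (hK : ∀ S st, K S st = true → Ref σ S st) {S : ℕ} {st : List ℕ}
    (h : stepF FT n K S st = true) : Ref σ S st := by
  unfold stepF at h
  simp only [frc_eq] at h
  set i := Nat.mod (Nat.shiftRight n 4) 256
  set x := dg n 3
  set y := dg n 4
  set v := Nat.mod (Nat.shiftRight n 20) 2 with hv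
  have hv2 : v < 2 := Nat.mod_lt _ (by norm_num)
  simp only [Bool.and_eq_true] at h
  obtain ⟨h1, h2, h3, h4, h5, h6, h7⟩ := h
  obtain ⟨h8, h9⟩ := hK _ _ h7
  refine ⟨fun hs => h8 ?_, h9⟩
  have e1 : i < 77 := Nat.le_of_ble_eq_true h1
  have e2 : x ≤ 13 := Nat.le_of_ble_eq_true h2
  have e3 : y ≤ 13 := Nat.le_of_ble_eq_true h3
  have e0 : Nat.lor (Nat.pow 2 (dg FT (Nat.mul 4 i))) (Nat.lor (Nat.pow 2 (dg FT (Nat.succ (Nat.mul 4 i))))
      (Nat.lor (Nat.pow 2 (dg FT (Nat.add 2 (Nat.mul 4 i)))) (Nat.pow 2 (dg FT (Nat.add 3 (Nat.mul 4 i))))))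
      = fM FT i := by
    unfold fM fv
    rw [Nat.add_comm (4 * i) 2, Nat.add_comm (4 * i) 3]
    rfl
  rw [e0] at h4 h5 h6 ⊢
  have e4 : tb (fM FT i) x = 0 := Nat.eq_of_beq_eq_true h4
  have e5 : tb (fM FT i) y = 0 := Nat.eq_of_beq_eq_true h5
  have e6 := hg.F i e1 x y e2 e3 e4 e5
  have e7 : σ (fM FT i ||| 2 ^ x) = v := sem_has hs hv2 h6
  have ecnt : ∀ z, Nat.add (Nat.add (lt01 z (dg FT (Nat.mul 4 i))) (lt01 z (dg FT (Nat.succ (Nat.mul 4 i)))))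
      (Nat.add (lt01 z (dg FT (Nat.add 2 (Nat.mul 4 i)))) (lt01 z (dg FT (Nat.add 3 (Nat.mul 4 i)))))
      = cnt FT i z := by
    intro z
    unfold cnt fv
    rw [Nat.add_comm (4 * i) 2, Nat.add_comm (4 * i) 3]
    rfl
  rw [ecnt, ecnt]
  refine sem_ins hs (Nat.mod_lt _ (by norm_num)) ?_
  show σ (fM FT i ||| 2 ^ y) = (v + (cnt FT i x + cnt FT i y)) % 2
  have := hg.lt2 (fM FT i ||| 2 ^ y)
  omega

theorem stepB_sound {FT : ℕ} {σ : ℕ → ℕ} (hg : Good FT σ) {n : ℕ} {K : ℕ → List ℕ → Bool}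
    (hK : ∀ S st, K S st = true → Ref σ S st) {S : ℕ} {st : List ℕ}
    (h : stepB n K S st = true) : Ref σ S st := by
  unfold stepB at h
  simp only [frc_eq] at h
  simp only [Bool.and_eq_true] at h
  obtain ⟨h1, h2, h3, h4, h5, h6, h7, h8, h9, h10, h11, h12, h13, h14, h15, h16⟩ := h
  obtain ⟨hr1, hr2⟩ := hK _ _ h16
  refine ⟨fun hs => hr1 ?_, hr2⟩
  clear hr1 hr2 h16
  replace h1 := Nat.le_of_ble_eq_true h1
  replace h2 := Nat.le_of_ble_eq_true h2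
  replace h3 := Nat.le_of_ble_eq_true h3
  replace h4 := Nat.le_of_ble_eq_true h4
  replace h5 := Nat.le_of_ble_eq_true h5
  replace h6 := Nat.le_of_ble_eq_true h6
  replace h7 := Nat.le_of_ble_eq_true h7
  replace h8 := Nat.le_of_ble_eq_true h8
  replace h9 := Nat.le_of_ble_eq_true h9
  replace h10 := Nat.le_of_ble_eq_true h10
  replace h11 := Nat.le_of_ble_eq_true h11
  replace h12 := Nat.eq_of_beq_eq_true h12
  set p := dg n 7
  set q := dg n 8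
  set r := dg n 9
  set t := dg n 10
  set x := dg n 11
  have hne : ∀ u, (u = p ∨ u = q ∨ u = r) → t ≠ u := by
    intro u hu htu
    have h13' : ((2 ^ p ||| (2 ^ q ||| 2 ^ r)) &&& 2 ^ t).testBit t = false := by
      have : (2 ^ p ||| (2 ^ q ||| 2 ^ r)) &&& 2 ^ t = 0 := h12
      rw [this]; simp
    rw [Nat.testBit_and, Nat.testBit_or, Nat.testBit_or, Nat.testBit_two_pow, Nat.testBit_two_pow,
      Nat.testBit_two_pow, Nat.testBit_two_pow] at h13'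
    rcases hu with rfl | rfl | rfl <;> simp [htu] at h13'
  have hx : x < 2 := by omega
  have e13 := sem_has hs (Nat.mod_lt _ (by norm_num)) h13
  have e14 := sem_has hs (Nat.mod_lt _ (by norm_num)) h14
  have e15 := sem_has hs (Nat.mod_lt _ (by norm_num)) h15
  have key := hg.B (dg n) h1 h2 h3 h4 h5 h6 _ rfl p q r t h7 h8 h9 h10 (hne p (Or.inl rfl))
    (hne q (Or.inr (Or.inl rfl))) (hne r (Or.inr (Or.inr rfl))) x hx e13 e14 e15
  refine sem_ins hs (Nat.mod_lt _ (by norm_num)) ?_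
  have h2' := hg.lt2 ((2 ^ dg n 1 ||| (2 ^ dg n 2 ||| (2 ^ dg n 3 ||| (2 ^ dg n 4 ||| (2 ^ dg n 5 |||
    2 ^ dg n 6))))) ^^^ 2 ^ dg n (t + 1))
  show σ ((2 ^ dg n 1 ||| (2 ^ dg n 2 ||| (2 ^ dg n 3 ||| (2 ^ dg n 4 ||| (2 ^ dg n 5 |||
    2 ^ dg n 6))))) ^^^ 2 ^ dg n (t + 1)) = (x + t + 1) % 2
  omega

theorem prm_sound {σ : ℕ → ℕ} {S : ℕ} (hs : Sem σ S) {f i m w : ℕ} (hw : w < 2)
    (h : prm S f i m w = true) : i = f ∨ σ m = w := by
  unfold prm at h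
  rw [Bool.or_eq_true] at h
  rcases h with h | h
  · left; exact Nat.eq_of_beq_eq_true h
  · right; exact sem_has hs hw h

theorem stepG_sound {FT : ℕ} {σ : ℕ → ℕ} (hg : Good FT σ) {n : ℕ} {K : ℕ → List ℕ → Bool}
    (hK : ∀ S st, K S st = true → Ref σ S st) {S : ℕ} {st : List ℕ}
    (h : stepG n K S st = true) : Ref σ S st := by
  unfold stepG at h
  simp only [frc_eq] at h
  simp only [Bool.and_eq_true] at h
  obtain ⟨h1, h2, h3, h4, h5, h6, h7, h8, h9, h10, h11, g0, g1, g2, g3, g4, g5, h16⟩ := h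
  obtain ⟨hr1, hr2⟩ := hK _ _ h16
  refine ⟨fun hs => hr1 ?_, hr2⟩
  clear hr1 hr2 h16
  replace h1 := Nat.le_of_ble_eq_true h1
  replace h2 := Nat.le_of_ble_eq_true h2
  replace h3 := Nat.le_of_ble_eq_true h3
  replace h4 := Nat.le_of_ble_eq_true h4
  replace h5 := Nat.le_of_ble_eq_true h5
  replace h6 := Nat.le_of_ble_eq_true h6
  replace h7 := Nat.le_of_ble_eq_true h7
  replace h8 := Nat.le_of_ble_eq_true h8
  replace h9 := Nat.eq_of_beq_eq_true h9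
  replace h10 := Nat.eq_of_beq_eq_true h10
  replace h11 := Nat.eq_of_beq_eq_true h11
  set t0 := dg n 1
  set t1 := dg n 2
  set t2 := dg n 3
  set a := dg n 4
  set b := dg n 5
  set c := dg n 6
  set d := dg n 7
  set f := dg n 8
  have hw : ∀ k, tb n k < 2 := fun k => Nat.mod_lt _ (by norm_num)
  have w0 := hw 36
  have w1 := hw 37
  have w2 := hw 38
  have w3 := hw 39
  have w4 := hw 40
  have w5 := hw 41
  replace g0 := prm_sound hs w0 g0
  replace g1 := prm_sound hs w1 g1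
  replace g2 := prm_sound hs w2 g2
  replace g3 := prm_sound hs w3 g3
  replace g4 := prm_sound hs w4 g4
  replace g5 := prm_sound hs w5 g5
  have hdis : ∀ s, s = a ∨ s = b ∨ s = c ∨ s = d → s ≠ t0 ∧ s ≠ t1 ∧ s ≠ t2 := by
    intro s hs'
    have h13' : ((2 ^ t0 ||| (2 ^ t1 ||| 2 ^ t2)) &&& ((2 ^ a ||| 2 ^ b) ||| (2 ^ c ||| 2 ^ d))).testBit s
        = false := by
      have : (2 ^ t0 ||| (2 ^ t1 ||| 2 ^ t2)) &&& ((2 ^ a ||| 2 ^ b) ||| (2 ^ c ||| 2 ^ d)) = 0 := h9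
      rw [this]; simp
    simp only [Nat.testBit_and, Nat.testBit_or, Nat.testBit_two_pow] at h13'
    refine ⟨?_, ?_, ?_⟩ <;> intro h14 <;> rcases hs' with hs' | hs' | hs' | hs' <;>
      simp [← h14, hs'] at h13'
  have key := hg.G t0 t1 t2 a b c d h1 h2 h3 h4 h5 h6 h7 hdis _ rfl
  set T := 2 ^ t0 ||| (2 ^ t1 ||| 2 ^ t2)
  have k0 := hg.lt2 (T ||| (2 ^ a ||| 2 ^ b))
  have k1 := hg.lt2 (T ||| (2 ^ c ||| 2 ^ d))
  have k2 := hg.lt2 (T ||| (2 ^ a ||| 2 ^ c))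
  have k3 := hg.lt2 (T ||| (2 ^ b ||| 2 ^ d))
  have k4 := hg.lt2 (T ||| (2 ^ a ||| 2 ^ d))
  have k5 := hg.lt2 (T ||| (2 ^ b ||| 2 ^ c))
  change 0 = f ∨ σ (T ||| (2 ^ a ||| 2 ^ b)) = tb n 36 at g0
  change 1 = f ∨ σ (T ||| (2 ^ c ||| 2 ^ d)) = tb n 37 at g1
  change 2 = f ∨ σ (T ||| (2 ^ a ||| 2 ^ c)) = tb n 38 at g2
  change 3 = f ∨ σ (T ||| (2 ^ b ||| 2 ^ d)) = tb n 39 at g3
  change 4 = f ∨ σ (T ||| (2 ^ a ||| 2 ^ d)) = tb n 40 at g4
  change 5 = f ∨ σ (T ||| (2 ^ b ||| 2 ^ c)) = tb n 41 at g5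
  change (tb n 36 + tb n 37) % 2 = (tb n 38 + tb n 39 + 1) % 2 at h10
  change (tb n 36 + tb n 37) % 2 = (tb n 40 + tb n 41) % 2 at h11
  have hfin : ∀ m w, w < 2 → σ m = 1 - w → Sem σ (ins S (Nat.add (Nat.mul 2 m) (Nat.sub 1 w))) := by
    intro m w hw' hm
    have hlt' : 1 - w < 2 := by omega
    exact sem_ins hs hlt' hm
  have hf : f = 0 ∨ f = 1 ∨ f = 2 ∨ f = 3 ∨ f = 4 ∨ f = 5 := by omega
  rcases hf with hf | hf | hf | hf | hf | hf
  · have e1 : ∀ a0 a1 a2 a3 a4 a5, sel f a0 a1 a2 a3 a4 a5 = a0 := by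
      intro a0 a1 a2 a3 a4 a5; rw [hf]; rfl
    rw [e1, e1]
    apply hfin _ _ w0
    change σ (T ||| (2 ^ a ||| 2 ^ b)) = _
    omega
  · have e1 : ∀ a0 a1 a2 a3 a4 a5, sel f a0 a1 a2 a3 a4 a5 = a1 := by
      intro a0 a1 a2 a3 a4 a5; rw [hf]; rfl
    rw [e1, e1]
    apply hfin _ _ w1
    change σ (T ||| (2 ^ c ||| 2 ^ d)) = _
    omega
  · have e1 : ∀ a0 a1 a2 a3 a4 a5, sel f a0 a1 a2 a3 a4 a5 = a2 := by
      intro a0 a1 a2 a3 a4 a5; rw [hf]; rfl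
    rw [e1, e1]
    apply hfin _ _ w2
    change σ (T ||| (2 ^ a ||| 2 ^ c)) = _
    omega
  · have e1 : ∀ a0 a1 a2 a3 a4 a5, sel f a0 a1 a2 a3 a4 a5 = a3 := by
      intro a0 a1 a2 a3 a4 a5; rw [hf]; rfl
    rw [e1, e1]
    apply hfin _ _ w3
    change σ (T ||| (2 ^ b ||| 2 ^ d)) = _
    omega
  · have e1 : ∀ a0 a1 a2 a3 a4 a5, sel f a0 a1 a2 a3 a4 a5 = a4 := by
      intro a0 a1 a2 a3 a4 a5; rw [hf]; rfl
    rw [e1, e1]
    apply hfin _ _ w4
    change σ (T ||| (2 ^ a ||| 2 ^ d)) = _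
    omega
  · have e1 : ∀ a0 a1 a2 a3 a4 a5, sel f a0 a1 a2 a3 a4 a5 = a5 := by
      intro a0 a1 a2 a3 a4 a5; rw [hf]; rfl
    rw [e1, e1]
    apply hfin _ _ w5
    change σ (T ||| (2 ^ b ||| 2 ^ c)) = _
    omega

theorem body_sound {FT : ℕ} {σ : ℕ → ℕ} (hg : Good FT σ) {n : ℕ} {K : ℕ → List ℕ → Bool}
    (hK : ∀ S st, K S st = true → Ref σ S st) {S : ℕ} {st : List ℕ}
    (h : body FT n K S st = true) : Ref σ S st := by
  unfold body at h
  rw [frc_eq] at h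
  generalize Nat.mod n 16 = k at h
  cases h2 : Nat.beq k 2 with
  | true => rw [h2, cond_true] at h; exact stepG_sound hg hK h
  | false =>
    rw [h2, cond_false] at h
    cases h1 : Nat.beq k 1 with
    | true => rw [h1, cond_true] at h; exact stepB_sound hg hK h
    | false =>
      rw [h1, cond_false] at h
      cases h0 : Nat.beq k 0 with
      | true => rw [h0, cond_true] at h; exact stepF_sound hg hK h
      | false =>
        rw [h0, cond_false] at h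
        cases h3 : Nat.beq k 3 with
        | true => rw [h3, cond_true] at h; exact stepD_sound hg hK h
        | false =>
          rw [h3, cond_false] at h
          cases h4 : Nat.beq k 4 with
          | true => rw [h4, cond_true] at h; exact stepC_sound hK h
          | false => rw [h4, cond_false] at h; exact absurd h Bool.false_ne_true

theorem run_sound {FT : ℕ} {σ : ℕ → ℕ} (hg : Good FT σ) (items : List ℕ) :
    ∀ S st, run FT items S st = true → Ref σ S st := by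
  induction items with
  | nil => intro S st h; exact absurd h (by simp [run])
  | cons n l ih =>
    intro S st h
    exact body_sound hg ih h


theorem sem_init (σ : ℕ → ℕ) (k : ℕ) (h : σ k = 0) : Sem σ (2 ^ (2 * k)) := by
  intro m v hv ht
  rw [tb_iff, Nat.testBit_two_pow] at ht
  have h2 : 2 * k = 2 * m + v := by simpa using ht
  have h3 : m = k := by omega
  have h4 : v = 0 := by omega
  rw [h3, h4, h]

theorem no_good0 (FT : ℕ) (cert : List ℕ) (k : ℕ) (hrun : run FT cert (2 ^ (2 * k)) [] = true)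
    (σ : ℕ → ℕ) (hg : Good FT σ) (h31 : σ k = 0) : False := by
  have h := (run_sound hg cert _ _ hrun).1
  exact h (sem_init σ k h31)

theorem good_shift (FT : ℕ) (σ : ℕ → ℕ) (hg : Good FT σ) (s : ℕ) (hs : s < 2) :
    Good FT (fun m => (σ m + s) % 2) where
  lt2 := fun m => Nat.mod_lt _ (by norm_num)
  F := by
    intro i hi x y hx hy h1 h2
    have := hg.F i hi x y hx hy h1 h2
    generalize σ (fM FT i ||| 2 ^ x) = a at *
    generalize σ (fM FT i ||| 2 ^ y) = b at *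
    generalize cnt FT i x = c at *
    generalize cnt FT i y = d at *
    clear hx hy h1 h2 hg
    omega
  B := by
    intro c h1 h2 h3 h4 h5 h6 M hM p q r t hpq hqr hr ht htp htq htr x hx e1 e2 e3 e4
    have key := hg.B c h1 h2 h3 h4 h5 h6 M hM p q r t hpq hqr hr ht htp htq htr ((x + s) % 2)
      (Nat.mod_lt _ (by norm_num))
    have l1 := hg.lt2 (M ^^^ 2 ^ c (p + 1))
    have l2 := hg.lt2 (M ^^^ 2 ^ c (q + 1))
    have l3 := hg.lt2 (M ^^^ 2 ^ c (r + 1))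
    have l4 := hg.lt2 (M ^^^ 2 ^ c (t + 1))
    clear h1 h2 h3 h4 h5 h6 hM hpq hqr hr ht htp htq htr hg
    generalize σ (M ^^^ 2 ^ c (p + 1)) = a1 at *
    generalize σ (M ^^^ 2 ^ c (q + 1)) = a2 at *
    generalize σ (M ^^^ 2 ^ c (r + 1)) = a3 at *
    generalize σ (M ^^^ 2 ^ c (t + 1)) = a4 at *
    have e1' : a1 = ((x + s) % 2 + p) % 2 := by clear key e2 e3 e4; omega
    have e2' : a2 = ((x + s) % 2 + q) % 2 := by clear key e1 e3 e4; omega
    have e3' : a3 = ((x + s) % 2 + r) % 2 := by clear key e2 e1 e4; omega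
    have e4' : a4 = ((x + s) % 2 + t) % 2 := by clear key e2 e3 e1; omega
    exact key e1' e2' e3' e4'
  G := by
    intro t0 t1 t2 a b c d h1 h2 h3 h4 h5 h6 h7 hdis T hT
    have key := hg.G t0 t1 t2 a b c d h1 h2 h3 h4 h5 h6 h7 hdis T hT
    rintro ⟨e1, e2⟩
    apply key
    clear key hdis h1 h2 h3 h4 h5 h6 h7 hT hg
    generalize σ (T ||| (2 ^ a ||| 2 ^ b)) = a0 at *
    generalize σ (T ||| (2 ^ c ||| 2 ^ d)) = a1 at *
    generalize σ (T ||| (2 ^ a ||| 2 ^ c)) = a2 at *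
    generalize σ (T ||| (2 ^ b ||| 2 ^ d)) = a3 at *
    generalize σ (T ||| (2 ^ a ||| 2 ^ d)) = a4 at *
    generalize σ (T ||| (2 ^ b ||| 2 ^ c)) = a5 at *
    constructor
    · clear e2; omega
    · clear e1; omega

theorem no_good_gen (FT : ℕ) (cert : List ℕ) (k : ℕ) (hrun : run FT cert (2 ^ (2 * k)) [] = true)
    (σ : ℕ → ℕ) (hg : Good FT σ) : False := by
  have h := hg.lt2 k
  apply no_good0 FT cert k hrun _ (good_shift FT σ hg (σ k) h)
  show (σ k + σ k) % 2 = 0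
  omega

end Pool.Agent.H284R2
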