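import Pool.Agent.H284R2.PData
import Pool.Agent.H284R2.Data
import Pool.Agent.H284R2.Sound

set_option autoImplicit false

namespace Pool.Agent.H284R2

def dot (a b : Fin 4 → ℤ) : ℤ := a 0 * b 0 + a 1 * b 1 + a 2 * b 2 + a 3 * b 3

def memF (i k : ℕ) : Bool :=
  Nat.beq k (fv FT i 0) || (Nat.beq k (fv FT i 1) || (Nat.beq k (fv FT i 2) || Nat.beq k (fv FT i 3)))

theorem hFT : ∀ i < 77, fv FT i 0 < fv FT i 1 ∧ fv FT i 1 < fv FT i 2 ∧ fv FT i 2 < fv FT i 3 ∧
    fv FT i 3 ≤ 13 := by decide +kernel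

theorem fac_chk : ∀ i : Fin 77, ∀ k : Fin 14,
    (memF i k = true → dot (fac i) (xP k) = facM i) ∧ (memF i k = false → dot (fac i) (xP k) < facM i) := by
  decide +kernel

theorem pair_chk : ∀ i j k : Fin 14,
    dot (fpr i j) (xP j) = dot (fpr i j) (xP i) ∧
      (k ≠ i → k ≠ j → dot (fpr i j) (xP k) < dot (fpr i j) (xP i)) := by
  decide +kernel

theorem sp_chk1 : ∀ m : Fin 4, ∑ k, spC m k = 0 := by decide +kernel

theorem sp_chk2 : ∀ m j : Fin 4, ∑ k, spC m k * xP k j = if j = m then spD else 0 := by decide +kernel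

end Pool.Agent.H284R2
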