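import Pool.Agent.H284R2.Face
import Pool.Agent.H284R2.PCheck

set_option autoImplicit false

namespace Pool.Agent.H284R2

/-- the vertices in `ℝ^4` -/
noncomputable def pt (i : Fin 14) : Sp 4 := WithLp.toLp 2 (fun c => (xP i c : ℝ))

/-- a functional with integer coefficients -/
noncomputable def lin (f : Fin 4 → ℤ) : StrongDual ℝ (Sp 4) :=
  ∑ c, (f c : ℝ) • (EuclideanSpace.proj c : Sp 4 →L[ℝ] ℝ)

theorem lin_pt (f : Fin 4 → ℤ) (i : Fin 14) : lin f (pt i) = ((dot f (xP i) : ℤ) : ℝ) := by
  simp [lin, pt, dot, Fin.sum_univ_four]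

/-- the indices of the facet `i` -/
def facS (i : ℕ) : Finset (Fin 14) := Finset.univ.filter fun k => memF i k = true

theorem memF_iff (i k : ℕ) : memF i k = true ↔
    (k = fv FT i 0 ∨ k = fv FT i 1 ∨ k = fv FT i 2 ∨ k = fv FT i 3) := by
  unfold memF
  simp only [Bool.or_eq_true, Nat.beq_eq]

/-- the facets are faces -/
theorem facet_face (i : ℕ) (hi : i < 77) : IsExposed ℝ (poly pt) (hull pt (facS i)) ∧
    ind pt (hull pt (facS i)) = facS i := by
  apply exposed_of_functional pt (facS i) (lin (fac ⟨i, hi⟩)) ((facM ⟨i, hi⟩ : ℤ) : ℝ)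
  · intro k hk
    rw [lin_pt]
    have h := (fac_chk ⟨i, hi⟩ k).1 (by simpa [facS] using hk)
    rw [h]
  · intro k hk
    rw [lin_pt]
    have h := (fac_chk ⟨i, hi⟩ k).2 (by simpa [facS] using hk)
    exact_mod_cast h

/-- all pairs are edges (and for `i = j`: all points are vertices) -/
theorem pair_face (i j : Fin 14) : IsExposed ℝ (poly pt) (hull pt {i, j}) ∧
    ind pt (hull pt {i, j}) = {i, j} := by
  apply exposed_of_functional pt {i, j} (lin (fpr i j)) (((dot (fpr i j) (xP i)) : ℤ) : ℝ)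
  · intro k hk
    rw [lin_pt]
    rw [Finset.mem_insert, Finset.mem_singleton] at hk
    rcases hk with rfl | rfl
    · rfl
    · rw [(pair_chk i k k).1]
  · intro k hk
    rw [lin_pt]
    rw [Finset.mem_insert, Finset.mem_singleton, not_or] at hk
    have h := (pair_chk i j k).2 hk.1 hk.2
    exact_mod_cast h

theorem pt_mem_hull (s : Finset (Fin 14)) {k : Fin 14} (hk : k ∈ s) : pt k ∈ hull pt s :=
  subset_convexHull ℝ _ ⟨k, by simpa using hk, rfl⟩

theorem single_face (i : Fin 14) : IsExposed ℝ (poly pt) {pt i} := by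
  have h := (pair_face i i).1
  have h2 : hull pt {i, i} = {pt i} := by
    rw [Finset.pair_eq_singleton]
    simp [hull]
  rwa [h2] at h

theorem pt_inj : Function.Injective pt := by
  intro i j hij
  have h := (pair_face i i).2
  rw [Finset.pair_eq_singleton] at h
  have h1 : j ∈ ind pt (hull pt {i}) := by
    rw [mem_ind, ← hij]
    exact pt_mem_hull _ (by simp)
  rw [h, Finset.mem_singleton] at h1
  exact h1.symm

theorem pt_ext (i : Fin 14) : pt i ∈ Set.extremePoints ℝ (poly pt) := by
  have h := (single_face i).isExtreme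
  exact isExtreme_singleton.1 h

theorem ext_poly : Set.extremePoints ℝ (poly pt) = Set.range pt := by
  apply Set.Subset.antisymm
  · exact extremePoints_convexHull_subset
  · rintro _ ⟨i, rfl⟩
    exact pt_ext i

theorem ext_hull (s : Finset (Fin 14)) : Set.extremePoints ℝ (hull pt s) = pt '' (s : Set (Fin 14)) := by
  apply Set.Subset.antisymm
  · exact extremePoints_convexHull_subset
  · rintro _ ⟨i, hi, rfl⟩
    have hsub : hull pt s ⊆ poly pt := convexHull_mono (Set.image_subset_range _ _)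
    exact inter_extremePoints_subset_extremePoints_of_subset hsub ⟨pt_mem_hull s (by simpa using hi), pt_ext i⟩

theorem span_top : affineSpan ℝ (poly pt) = ⊤ := by
  have hne : (poly pt).Nonempty := ⟨pt 0, subset_convexHull ℝ _ ⟨0, rfl⟩⟩
  rw [AffineSubspace.affineSpan_eq_top_iff_vectorSpan_eq_top_of_nonempty ℝ (Sp 4) (Sp 4) hne]
  rw [eq_top_iff]
  intro v _
  have hD' : (spD : ℝ) ≠ 0 := by
    have : spD ≠ 0 := by decide
    exact_mod_cast this
  have hv : v = ∑ m, (v m / spD) • ∑ k, (spC m k : ℝ) • (pt k - pt 0) := by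
    have h3 : ∀ m, ∑ k, (spC m k : ℝ) • (pt k - pt 0) = ∑ k, (spC m k : ℝ) • pt k := by
      intro m
      simp only [smul_sub, Finset.sum_sub_distrib, ← Finset.sum_smul]
      have h4 : ∑ k, (spC m k : ℝ) = 0 := by exact_mod_cast sp_chk1 m
      rw [h4, zero_smul, sub_zero]
    simp only [h3]
    ext j
    have h5 : ∀ m, (∑ k, (spC m k : ℝ) • pt k) j = if j = m then (spD : ℝ) else 0 := by
      intro m
      have h6 : ((∑ k, spC m k * xP k j : ℤ) : ℝ) = ((if j = m then spD else 0 : ℤ) : ℝ) := by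
        rw [sp_chk2 m j]
      push_cast at h6
      simpa [pt] using h6
    have h7 : (∑ m, (v m / spD) • ∑ k, (spC m k : ℝ) • pt k) j =
        ∑ m, (v m / spD) * (∑ k, (spC m k : ℝ) • pt k) j := by
      simp
    rw [h7]
    simp only [h5]
    simp [hD']
  rw [hv]
  refine Submodule.sum_mem _ fun m _ => Submodule.smul_mem _ _ ?_
  refine Submodule.sum_mem _ fun k _ => Submodule.smul_mem _ _ ?_
  exact vsub_mem_vectorSpan ℝ (subset_convexHull ℝ _ ⟨k, rfl⟩) (subset_convexHull ℝ _ ⟨0, rfl⟩)

end Pool.Agent.H284R2
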