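import Mathlib
import Pool.Agent.H284R2.RZ5_NM4e
import Pool.Agent.H899R2.RZ5_LS4
import Pool.Agent.H375R3.RZ5_PO

set_option autoImplicit false

namespace Pool.Agent.H284R2.RZ5

open Finset Filter Topology MeasureTheory Pool.Agent.H306R2.RZ

noncomputable section

/-- moments of smooth dyadic sums -/
theorem NM4 (ε : ℝ) (hε : 0 < ε) : ∃ (C : ℝ) (A : ℕ), 0 < C ∧ ∀ (K : ℕ) (y D : ℝ) (ψ : ℕ → ℂ)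
    (φ : ℝ → ℂ), 1 ≤ K → 1 / 2 ≤ y → (∀ m, ‖ψ m‖ ≤ 1) → (∀ m, ψ (m + 8) = ψ m) →
    ContDiff ℝ ((⊤ : ℕ∞) : WithTop ℕ∞) φ → (∀ u, φ u ≠ 0 → 1 / 2 ≤ u ∧ u ≤ 2) →
    (∀ j ≤ A, ∀ u, ‖iteratedDeriv j φ u‖ ≤ D) →
    ∑ κ ∈ (osf K).filter (fun κ => 1 < κ),
        ‖∑' m : ℕ, if Odd m then ψ m * (js m κ : ℂ) * φ (m / y) else 0‖ ^ 4 ≤
      C * D ^ 4 * ((K : ℝ) * y) ^ ε * (K * y ^ 2) :=
  RZ5_NM4.NM4_of (fun δ hδ => Pool.Agent.H899R2.RZ.LS4 δ hδ)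
    (fun ψ h1 h2 => Pool.Agent.H375R3.RZ5.PO ψ h1 h2) ε hε

end

end Pool.Agent.H284R2.RZ5
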